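import Mathlib

/-!
# Steinberg relations modulo 2 and an element of order seven

If six involutions satisfy the Steinberg relations of `SL_3(F_2)` and the element
`e12 e23 e31` has fourth power `1`, then they are trivial.
-/

namespace Pool.Agent.Work.OutFn

variable {G : Type*} [Group G]

/-- The six relations of type `[e_ij, e_jk] = e_ik` for involutions. -/
structure Stein (a b c A B C : G) : Prop where
  ha : a * a = 1
  hb : b * b = 1
  hc : c * c = 1
  hA : A * A = 1
  hB : B * B = 1
  hC : C * C = 1
  aC : a * C = C * a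
  Ab : A * b = b * A
  cB : c * B = B * c
  aB : a * B = B * a
  Cb : C * b = b * C
  Ac : A * c = c * A
  ba : b * a = a * b * C
  cb : c * b = b * c * A
  ac : a * c = c * a * B
  BC : B * C = C * B * a
  CA : C * A = A * C * b
  AB : A * B = B * A * c

theorem cancel_inv {x : G} (h : x * x = 1) (y : G) : x * (x * y) = y := by
  rw [← mul_assoc, h, one_mul]

theorem reassoc2 {x y z w : G} (h : x * y = z * w) (t : G) : x * (y * t) = z * (w * t) := by
  rw [← mul_assoc, h, mul_assoc]

theorem reassoc3 {x y z w v : G} (h : x * y = z * w * v) (t : G) :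
    x * (y * t) = z * (w * (v * t)) := by
  rw [← mul_assoc, h, mul_assoc, mul_assoc]

namespace Stein

variable {a b c A B C : G}

theorem s1 (h : Stein a b c A B C) : (a * b * c) * a = (b * B * b) * (a * b * c) := by
  have e1 : c * a = a * (c * B) := by
    have := h.ac
    rw [← mul_assoc, this, mul_assoc, h.hB, mul_one]
  have e2 : C * B = B * (C * a) := by
    rw [← mul_assoc, h.BC, mul_assoc, h.ha, mul_one]
  have l : (a * b * c) * a = b * (B * (C * (a * c))) := by
    simp only [mul_assoc]
    rw [e1, reassoc3 h.ba, cancel_inv h.ha, h.cB, ← mul_assoc C B c, e2]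
    simp only [mul_assoc]
  have r : (b * B * b) * (a * b * c) = b * (B * (C * (a * c))) := by
    simp only [mul_assoc]
    rw [reassoc3 h.ba, reassoc2 h.Cb, cancel_inv h.hb, reassoc2 h.aC]
  rw [l, r]

theorem s2 (h : Stein a b c A B C) : (a * b * c) * (b * B * b) = c * (a * b * c) := by
  simp only [mul_assoc]
  rw [reassoc3 h.cb, cancel_inv h.hb, reassoc3 h.AB, h.cb]
  simp only [mul_assoc]
  rw [reassoc2 h.Ab, ← h.Ac, cancel_inv h.hA, reassoc3 h.ac, cancel_inv h.hB]

theorem s3 (h : Stein a b c A B C) : (a * b * c) * c = (a * A * c * a) * (a * b * c) := by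
  have e : c * (b * c) = b * A := by
    rw [← mul_assoc, h.cb, mul_assoc, mul_assoc, h.Ac, cancel_inv h.hc]
  simp only [mul_assoc]
  rw [h.hc, mul_one, cancel_inv h.ha, e, reassoc2 h.Ab, h.hA, mul_one]

theorem s3' (h : Stein a b c A B C) : (a * b * c) * A = (a * A * a) * (a * b * c) := by
  simp only [mul_assoc]
  rw [← h.Ac, ← reassoc2 h.Ab, cancel_inv h.ha]

/-- conjugation by `w = b B b` -/
theorem wa (h : Stein a b c A B C) : (b * B * b) * a = C * (b * B * b) := by
  simp only [mul_assoc]
  have e : B * C = C * (a * B) := by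
    rw [h.BC, mul_assoc, h.aB]
  rw [h.ba, mul_assoc, ← h.Cb, ← reassoc2 h.aB, ← mul_assoc B C b, e]
  simp only [mul_assoc]
  rw [reassoc2 h.aC, cancel_inv h.ha, ← reassoc2 h.Cb]

theorem wc (h : Stein a b c A B C) : (b * B * b) * c = A * (b * B * b) := by
  have e1 : b * c = c * (A * b) := by
    have e0 : b * (c * b) = c * A := by rw [h.cb, mul_assoc, cancel_inv h.hb]
    have : b * (c * b) * b = c * A * b := by rw [e0]
    rw [← mul_assoc, mul_assoc (b * c), h.hb, mul_one, mul_assoc] at this
    exact this
  have e2 : B * A = A * (c * B) := by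
    have e0 : B * (A * B) = A * c := by rw [h.AB, mul_assoc, cancel_inv h.hB]
    have : B * (A * B) * B = A * c * B := by rw [e0]
    rw [← mul_assoc, mul_assoc (B * A), h.hB, mul_one, mul_assoc] at this
    exact this
  simp only [mul_assoc]
  rw [e1, reassoc2 h.cB.symm, ← mul_assoc B A b, e2]
  simp only [mul_assoc]
  rw [reassoc2 h.Ac, cancel_inv h.hc, reassoc2 h.Ab.symm]

theorem ww (h : Stein a b c A B C) : (b * B * b) * (b * B * b) = 1 := by
  simp only [mul_assoc]
  rw [cancel_inv h.hb, cancel_inv h.hB, h.hb]

theorem wB (h : Stein a b c A B C) : (b * B * b) * B = b * (b * B * b) := by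
  have eB : B = a * c * a * c := by
    rw [h.ac]
    have : c * a * B * a * c = c * a * (B * a) * c := by simp only [mul_assoc]
    rw [this, ← h.aB]
    simp only [mul_assoc]
    rw [cancel_inv h.ha, h.cB.symm, cancel_inv h.hc]
  have eb : b = C * A * C * A := by
    rw [h.CA]
    have : A * C * b * C * A = A * C * (b * C) * A := by simp only [mul_assoc]
    rw [this, ← h.Cb]
    simp only [mul_assoc]
    rw [cancel_inv h.hC, h.Ab.symm, cancel_inv h.hA]
  have s : SemiconjBy (b * B * b) (a * c * a * c) (C * A * C * A) :=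
    (((SemiconjBy.mul_right (show SemiconjBy (b * B * b) a C from h.wa)
      (show SemiconjBy (b * B * b) c A from h.wc)).mul_right h.wa).mul_right h.wc)
  have s' : (b * B * b) * (a * c * a * c) = (C * A * C * A) * (b * B * b) := s
  rw [← eB, ← eb] at s'
  exact s'

/-- The main lemma: order dividing 4 and 7. -/
theorem eq_one (h : Stein a b c A B C) (h4 : (a * b * c) ^ 4 = 1) : b = 1 := by
  set y := a * b * c with hy
  set w := b * B * b with hw
  have t1 : SemiconjBy y a w := h.s1
  have t2 : SemiconjBy y w c := h.s2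
  have t3 : SemiconjBy y c (a * A * c * a) := h.s3
  have t3' : SemiconjBy y A (a * A * a) := h.s3'
  have t4 : SemiconjBy y (a * A * c * a) (w * (a * A * a) * (a * A * c * a) * w) :=
    ((t1.mul_right t3').mul_right t3).mul_right t1
  have e4 : w * (a * A * a) * (a * A * c * a) * w = A * b := by
    have e1 : (a * A * a) * (a * A * c * a) = c * B := by
      simp only [mul_assoc]
      rw [cancel_inv h.ha, cancel_inv h.hA]
      have e0 : a * B * a = B := by rw [h.aB, mul_assoc, h.ha, mul_one]
      rw [← mul_assoc, h.ac, mul_assoc, mul_assoc, ← mul_assoc a, e0]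
    have e2 : w * (c * B) = (A * b) * w := (SemiconjBy.mul_right
      (show SemiconjBy w c A from h.wc) (show SemiconjBy w B b from h.wB))
    rw [mul_assoc w, e1, e2, mul_assoc, h.ww, mul_one]
  rw [e4] at t4
  have t : SemiconjBy (y * (y * (y * y))) a (A * b) :=
    t4.mul_left (t3.mul_left (t2.mul_left t1))
  have h5 : y * (y * (y * y)) = 1 := by
    rw [← h4]
    simp only [pow_succ, pow_zero, one_mul, mul_assoc]
  rw [h5] at t
  have h6 : a = A * b := by
    have := t.eq
    rwa [one_mul, mul_one] at this
  have h7 : C * a * C = a := by rw [← h.aC, mul_assoc, h.hC, mul_one]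
  have h8 : C * (A * b) * C = A := by
    rw [← mul_assoc, h.CA]
    have : A * C * b * b * C = A * C * (b * b) * C := by simp only [mul_assoc]
    rw [this, h.hb, mul_one, mul_assoc, h.hC, mul_one]
  rw [← h6, h7] at h8
  rw [← h8] at h6
  exact (mul_eq_left.1 h6.symm)

end Stein

end Pool.Agent.Work.OutFn
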