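import Pool.Agent.Work.MP_ac5e87_al.Small
import Pool.Agent.Work.MP_ac5e87_al.Stein

/-!
# Twelfth powers in `Aut(F_3)` kill the transvections
-/

namespace Pool.Agent.Work.OutFn

open FreeGroup hiding map_mul map_inv map_one

section General

variable {Q : Type*} [Group Q]

/-- If `x`, `y` commute and `h` maps `x` to `y` and `y` to `x y`, then `h ^ (k + 1)` maps `x` to
`x ^ fib k * y ^ fib (k + 1)`. -/
theorem fib_conj {h x y : Q} (hxy : Commute x y) (h1 : SemiconjBy h x y)
    (h2 : SemiconjBy h y (x * y)) (k : ℕ) :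
    SemiconjBy (h ^ (k + 1)) x (x ^ Nat.fib k * y ^ Nat.fib (k + 1)) := by
  induction k with
  | zero => simpa using h1
  | succ k ih =>
    have e : y ^ Nat.fib k * (x * y) ^ Nat.fib (k + 1) =
        x ^ Nat.fib (k + 1) * y ^ Nat.fib (k + 2) := by
      rw [hxy.mul_pow, ← mul_assoc, (hxy.symm.pow_pow (Nat.fib k) (Nat.fib (k + 1))).eq,
        mul_assoc, ← pow_add, ← Nat.fib_add_two]
    rw [pow_succ' h (k + 1), ← e]
    exact ((h1.pow_right _).mul_right (h2.pow_right _)).mul_left ih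

theorem sq_of_fib {h x y : Q} (hxy : Commute x y) (h1 : SemiconjBy h x y)
    (h2 : SemiconjBy h y (x * y)) (h12 : h ^ 12 = 1) (hx : x ^ 6 = 1) (hy : y ^ 6 = 1) :
    x * x = 1 := by
  have e := fib_conj hxy h1 h2 11
  have f1 : Nat.fib 11 = 89 := by decide
  have f2 : Nat.fib 12 = 144 := by decide
  have e' : SemiconjBy (h ^ 12) x (x ^ 89 * y ^ 144) := by
    rw [f1] at e
    rw [show (11 + 1 : ℕ) = 12 from rfl, f2] at e
    exact e
  rw [h12] at e'
  have e2 : x = x ^ 89 * y ^ 144 := by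
    have := e'.eq
    rwa [one_mul, mul_one] at this
  have e3 : y ^ 144 = 1 := by
    rw [show 144 = 6 * 24 from rfl, pow_mul, hy, one_pow]
  have e4 : x ^ 89 = x ^ 5 := by
    rw [show 89 = 6 * 14 + 5 from rfl, pow_add, pow_mul, hx, one_pow, one_mul]
  rw [e3, mul_one, e4] at e2
  have e5 : x ^ 4 = 1 := by
    have : x * x ^ 4 = x * 1 := by
      rw [mul_one, ← pow_succ']
      exact e2.symm
    exact mul_left_cancel this
  have e6 : x ^ 6 = x ^ 4 * (x * x) := by
    rw [show 6 = 4 + 2 from rfl, pow_add, pow_two]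
  rw [e5, one_mul] at e6
  rw [← e6, hx]

end General

section Three

variable {Q : Type*} [Group Q]

abbrev S01 : Equiv.Perm (Fin 3) := Equiv.swap 0 1

theorem phi_swap (φ : MulAut (FreeGroup (Fin 3)) →* Q) {i j k l : Fin 3} (hij : i ≠ j)
    (hkl : k ≠ l) (σ : Equiv.Perm (Fin 3)) (h1 : σ i = k) (h2 : σ j = l) :
    SemiconjBy (φ (permN σ)) (φ (rhoN i j hij)) (φ (rhoN k l hkl)) := by
  subst h1 h2
  rw [SemiconjBy, ← map_mul, ← map_mul, permN_mul_rhoN]

theorem phi_eps_snd (φ : MulAut (FreeGroup (Fin 3)) →* Q) {i j : Fin 3} (hij : i ≠ j) :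
    SemiconjBy (φ (epsN j)) (φ (rhoN i j hij)) (φ (rhoN i j hij))⁻¹ := by
  have h := congrArg φ (rhoN_epsN_snd hij)
  rw [map_mul, map_mul] at h
  rw [SemiconjBy, eq_inv_mul_iff_mul_eq, ← mul_assoc]
  exact h

theorem phi_eps_ne (φ : MulAut (FreeGroup (Fin 3)) →* Q) {i j k : Fin 3} (hij : i ≠ j)
    (hki : k ≠ i) (hkj : k ≠ j) :
    SemiconjBy (φ (epsN k)) (φ (rhoN i j hij)) (φ (rhoN i j hij)) := by
  have h := congrArg φ (rhoN_epsN hij hki hkj)
  rw [map_mul, map_mul] at h
  exact h.symm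

theorem swap_sq (φ : MulAut (FreeGroup (Fin 3)) →* Q) :
    φ (permN S01) * φ (permN S01) = 1 := by
  rw [← map_mul, ← map_mul, Equiv.swap_mul_self, map_one, map_one]

/-- `ρ_01 ρ_20 ρ_01⁻¹ = ρ_20 ρ_21` -/
theorem rho_conj (φ : MulAut (FreeGroup (Fin 3)) →* Q) {i j k : Fin 3} (hij : i ≠ j)
    (hjk : j ≠ k) (hik : i ≠ k) :
    SemiconjBy (φ (rhoN j k hjk)) (φ (rhoN i j hij)) (φ (rhoN i j hij) * φ (rhoN i k hik)) := by
  have h := congrArg φ (rhoN_comm hij hjk hik)
  have h' := congrArg φ (rhoN_commute hjk hik hij.symm hik.symm hjk)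
  rw [map_mul, map_mul, map_mul] at h
  rw [map_mul, map_mul] at h'
  rw [SemiconjBy, h, mul_assoc, mul_assoc, h']

/-- Step 1: the sixth power of a transvection dies. -/
theorem rho_pow_six {φ : MulAut (FreeGroup (Fin 3)) →* Q} (hφ : ∀ g, φ g ^ 12 = 1)
    {i j : Fin 3} (hij : i ≠ j) : φ (rhoN i j hij) ^ 6 = 1 := by
  have h20 : (2 : Fin 3) ≠ 0 := by decide
  have h21 : (2 : Fin 3) ≠ 1 := by decide
  have h01 : (0 : Fin 3) ≠ 1 := by decide
  have main : φ (rhoN 2 0 h20) ^ 6 = 1 := by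
    have s := phi_swap φ h20 h21 S01 (by decide) (by decide)
    have e : φ (rhoN 2 0 h20 * permN S01) ^ 2 = φ (rhoN 2 0 h20) * φ (rhoN 2 1 h21) := by
      rw [map_mul, pow_two, mul_assoc, ← mul_assoc (φ (permN S01)), s.eq, mul_assoc, swap_sq,
        mul_one]
    have e2 : (φ (rhoN 2 0 h20) * φ (rhoN 2 1 h21)) ^ 6 = 1 := by
      rw [← e, ← pow_mul]
      exact hφ _
    have t := (rho_conj φ h20 h01 h21).pow_right 6
    rw [e2] at t
    have t' := t.eq
    rw [one_mul] at t'
    exact mul_eq_left.1 t'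
  obtain ⟨σ, h1, h2⟩ := exists_perm h20 hij
  have s := (phi_swap φ h20 hij σ h1 h2).pow_right 6
  rw [main] at s
  have s' := s.eq
  rw [mul_one] at s'
  exact (mul_eq_right.1 s'.symm)

/-- the automorphism `x_0 ↦ x_1⁻¹ x_0⁻¹`, `x_1 ↦ x_0` -/
def ord3 : MulAut (FreeGroup (Fin 3)) :=
  epsN 1 * (rhoN 1 0 (by decide))⁻¹ * permN S01

theorem ord3_0 : ord3 (of 0) = (of 1)⁻¹ * (of 0)⁻¹ := by
  have h10 : (1 : Fin 3) ≠ 0 := by decide
  rw [ord3, MulAut.mul_apply, MulAut.mul_apply, permN_of, Equiv.swap_apply_left,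
    rhoN_inv_self h10, map_mul, map_inv, epsN_self, epsN_ne h10.symm]

theorem ord3_1 : ord3 (of 1) = of 0 := by
  have h10 : (1 : Fin 3) ≠ 0 := by decide
  rw [ord3, MulAut.mul_apply, MulAut.mul_apply, permN_of, Equiv.swap_apply_right,
    rhoN_inv_ne h10 h10.symm, epsN_ne h10.symm]

theorem ord3_2 : ord3 (of 2) = of 2 := by
  have h10 : (1 : Fin 3) ≠ 0 := by decide
  have h21 : (2 : Fin 3) ≠ 1 := by decide
  have h20 : (2 : Fin 3) ≠ 0 := by decide
  rw [ord3, MulAut.mul_apply, MulAut.mul_apply, permN_of, Equiv.swap_apply_of_ne_of_ne h20 h21,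
    rhoN_inv_ne h10 h21, epsN_ne h21]

theorem ord3_cube : ord3 * (ord3 * ord3) = 1 := by
  apply aut_ext
  intro k
  rw [MulAut.mul_apply, MulAut.mul_apply, MulAut.one_apply]
  fin_cases k
  · change ord3 (ord3 (ord3 (of 0))) = of 0
    rw [ord3_0, map_mul, map_inv, map_inv, ord3_1, ord3_0, map_mul, map_inv, map_inv, map_mul,
      map_inv, map_inv, ord3_1, ord3_0]
    group
  · change ord3 (ord3 (ord3 (of 1))) = of 1
    rw [ord3_1, ord3_0, map_mul, map_inv, map_inv, ord3_1, ord3_0]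
    group
  · change ord3 (ord3 (ord3 (of 2))) = of 2
    rw [ord3_2, ord3_2, ord3_2]

/-- Step 2: two transvections with the same first index commute. -/
theorem rho_commute {φ : MulAut (FreeGroup (Fin 3)) →* Q} (hφ : ∀ g, φ g ^ 12 = 1)
    {i j k : Fin 3} (hij : i ≠ j) (hik : i ≠ k) (hjk : j ≠ k) :
    Commute (φ (rhoN i j hij)) (φ (rhoN i k hik)) := by
  have h20 : (2 : Fin 3) ≠ 0 := by decide
  have h21 : (2 : Fin 3) ≠ 1 := by decide
  have h01 : (0 : Fin 3) ≠ 1 := by decide
  have h10 : (1 : Fin 3) ≠ 0 := by decide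
  have main : Commute (φ (rhoN 2 0 h20)) (φ (rhoN 2 1 h21)) := by
    set x := φ (rhoN 2 0 h20) with hx
    set y := φ (rhoN 2 1 h21) with hy
    set P := φ (permN S01) with hP
    have sx : SemiconjBy P x y := phi_swap φ h20 h21 S01 (by decide) (by decide)
    have sy : SemiconjBy P y x := phi_swap φ h21 h20 S01 (by decide) (by decide)
    -- order 4
    have k3 : (x * y * x⁻¹ * y⁻¹) ^ 3 = 1 := by
      set T := φ (epsN 0) * P with hT
      have tx : SemiconjBy T x y := (phi_eps_ne φ h21 (by decide) h01).mul_left sx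
      have ty : SemiconjBy T y x⁻¹ := (phi_eps_snd φ h20).mul_left sy
      have T4 : T * (T * (T * T)) = 1 := by
        have e1 : T * T = φ (epsN 0) * φ (epsN 1) := by
          have s : P * φ (epsN 0) = φ (epsN 1) * P := by
            rw [hP, ← map_mul, ← map_mul, permN_mul_epsN, Equiv.swap_apply_left]
          rw [hT, mul_assoc, ← mul_assoc P, s, mul_assoc (φ (epsN 1)), hP, swap_sq, mul_one]
        have e2 : φ (epsN 0) * φ (epsN 1) = φ (epsN 1) * φ (epsN 0) := by
          rw [← map_mul, epsN_comm, map_mul]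
        rw [← mul_assoc, e1]
        nth_rewrite 2 [e2]
        rw [mul_assoc, cancel_inv (eps_sq φ 1), eps_sq]
      have e : (x * T) ^ 4 = x * y * x⁻¹ * y⁻¹ := by
        have a1 : T * x = y * T := tx
        have a2 : T * y = x⁻¹ * T := ty
        have a3 : T * x⁻¹ = y⁻¹ * T := tx.inv_right
        have : (x * T) ^ 4 = x * (T * x) * (T * x) * (T * x) * T := by
          simp only [pow_succ, pow_zero, one_mul, mul_assoc]
        rw [this, a1]
        have : x * (y * T) * (y * T) * (y * T) * T = x * y * (T * y) * (T * y) * (T * T) := by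
          simp only [mul_assoc]
        rw [this, a2]
        have : x * y * (x⁻¹ * T) * (x⁻¹ * T) * (T * T) =
            x * y * x⁻¹ * (T * x⁻¹) * (T * (T * T)) := by
          simp only [mul_assoc]
        rw [this, a3]
        have : x * y * x⁻¹ * (y⁻¹ * T) * (T * (T * T)) =
            x * y * x⁻¹ * y⁻¹ * (T * (T * (T * T))) := by
          simp only [mul_assoc]
        rw [this, T4, mul_one]
      rw [← e, ← pow_mul]
      have := hφ (rhoN 2 0 h20 * (epsN 0 * permN S01))
      rwa [map_mul, map_mul, ← hx, ← hP, ← hT] at this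
    -- order 3
    have k4 : (x * y⁻¹ * x⁻¹ * y) ^ 4 = 1 := by
      set T := φ ord3 with hT
      have T3 : T * (T * T) = 1 := by
        rw [hT, ← map_mul, ← map_mul, ord3_cube, map_one]
      have hTe : T = φ (epsN 1) * (φ (rhoN 1 0 h10))⁻¹ * P := by
        rw [hT, ord3, map_mul, map_mul, map_inv]
      have r1 : SemiconjBy (φ (rhoN 1 0 h10)) (y * x⁻¹) y := by
        have s1 := rho_conj φ h21 h10 h20
        have s2 : SemiconjBy (φ (rhoN 1 0 h10)) x x := by
          have := congrArg φ (rhoN_commute h10 h20 h21.symm h20.symm h10)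
          rwa [map_mul, map_mul] at this
        have := s1.mul_right s2.inv_right
        rwa [← hx, ← hy, mul_inv_cancel_right] at this
      have r2 : SemiconjBy (φ (rhoN 1 0 h10)) x x := by
        have := congrArg φ (rhoN_commute h10 h20 h21.symm h20.symm h10)
        rwa [map_mul, map_mul] at this
      have e1x : SemiconjBy (φ (epsN 1)) x x := phi_eps_ne φ h20 h21.symm h10
      have e1y : SemiconjBy (φ (epsN 1)) y y⁻¹ := phi_eps_snd φ h21
      have tx : SemiconjBy T x (y⁻¹ * x⁻¹) := by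
        rw [hTe]
        exact ((e1y.mul_right e1x.inv_right).mul_left r1.inv_symm_left).mul_left sx
      have ty : SemiconjBy T y x := by
        rw [hTe]
        exact (e1x.mul_left r2.inv_symm_left).mul_left sy
      have e : (x * T) ^ 3 = x * y⁻¹ * x⁻¹ * y := by
        have a1 : T * x = y⁻¹ * x⁻¹ * T := tx
        have a2 : T * (y⁻¹ * x⁻¹) = y * T := by
          have := ty.inv_right.mul_right tx.inv_right
          rw [mul_inv_rev, inv_inv, inv_inv, inv_mul_cancel_left] at this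
          exact this
        have : (x * T) ^ 3 = x * (T * x) * (T * x) * T := by
          simp only [pow_succ, pow_zero, one_mul, mul_assoc]
        rw [this, a1]
        have : x * (y⁻¹ * x⁻¹ * T) * (y⁻¹ * x⁻¹ * T) * T =
            x * y⁻¹ * x⁻¹ * (T * (y⁻¹ * x⁻¹)) * (T * T) := by
          simp only [mul_assoc]
        rw [this, a2]
        have : x * y⁻¹ * x⁻¹ * (y * T) * (T * T) = x * y⁻¹ * x⁻¹ * y * (T * (T * T)) := by
          simp only [mul_assoc]
        rw [this, T3, mul_one]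
      rw [← e, ← pow_mul]
      have := hφ (rhoN 2 0 h20 * ord3)
      rwa [map_mul, ← hx, ← hT] at this
    have k4' : (x * y * x⁻¹ * y⁻¹) ^ 4 = 1 := by
      have e : x * y * x⁻¹ * y⁻¹ = y * (x * y⁻¹ * x⁻¹ * y)⁻¹ * y⁻¹ := by group
      rw [e, conj_pow, inv_pow, k4, inv_one, mul_one, mul_inv_cancel]
    have k1 : x * y * x⁻¹ * y⁻¹ = 1 := by
      have := k4'
      rw [pow_succ, k3, one_mul] at this
      exact this
    rw [mul_inv_eq_one, mul_inv_eq_iff_eq_mul] at k1
    exact k1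
  obtain ⟨σ, h1, h2⟩ := exists_perm h20 hij
  have h3 : σ 1 = k := by
    have a1 : σ 1 ≠ i := by
      rw [← h1]
      exact σ.injective.ne (by decide)
    have a2 : σ 1 ≠ j := by
      rw [← h2]
      exact σ.injective.ne (by decide)
    omega
  have s1 := phi_swap φ h20 hij σ h1 h2
  have s2 := phi_swap φ h21 hik σ h1 h3
  have a := s1.mul_right s2
  have b := s2.mul_right s1
  rw [main.eq] at a
  have := a.eq.symm.trans b.eq
  exact mul_right_cancel this

/-- Step 3: the square of a transvection dies. -/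
theorem rho_sq_one {φ : MulAut (FreeGroup (Fin 3)) →* Q} (hφ : ∀ g, φ g ^ 12 = 1)
    {i j : Fin 3} (hij : i ≠ j) : φ (rhoN i j hij) * φ (rhoN i j hij) = 1 := by
  have h20 : (2 : Fin 3) ≠ 0 := by decide
  have h21 : (2 : Fin 3) ≠ 1 := by decide
  have h01 : (0 : Fin 3) ≠ 1 := by decide
  have main : φ (rhoN 2 0 h20) * φ (rhoN 2 0 h20) = 1 := by
    have sx := phi_swap φ h20 h21 S01 (by decide) (by decide)
    have sy := phi_swap φ h21 h20 S01 (by decide) (by decide)
    have r1 := rho_conj φ h20 h01 h21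
    have r2 : SemiconjBy (φ (rhoN 0 1 h01)) (φ (rhoN 2 1 h21)) (φ (rhoN 2 1 h21)) := by
      have := congrArg φ (rhoN_commute h01 h21 h20.symm h21.symm h01)
      rwa [map_mul, map_mul] at this
    apply sq_of_fib (h := φ (rhoN 0 1 h01) * φ (permN S01)) (rho_commute hφ h20 h21 h01)
      (r2.mul_left sx) (r1.mul_left sy) _ (rho_pow_six hφ h20) (rho_pow_six hφ h21)
    rw [← map_mul]
    exact hφ _
  obtain ⟨σ, h1, h2⟩ := exists_perm h20 hij
  have s := (phi_swap φ h20 hij σ h1 h2)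
  have s2 := s.mul_right s
  rw [main] at s2
  have s' := s2.eq
  rw [mul_one] at s'
  exact (mul_eq_right.1 s'.symm)

/-- Step 4: the transvections die. -/
theorem twelve (φ : MulAut (FreeGroup (Fin 3)) →* Q) (hφ : ∀ g, φ g ^ 12 = 1) :
    ∃ (i j : Fin 3) (hij : i ≠ j), φ (rhoN i j hij) = 1 := by
  have h01 : (0 : Fin 3) ≠ 1 := by decide
  have h12 : (1 : Fin 3) ≠ 2 := by decide
  have h20 : (2 : Fin 3) ≠ 0 := by decide
  have h10 : (1 : Fin 3) ≠ 0 := by decide
  have h21 : (2 : Fin 3) ≠ 1 := by decide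
  have h02 : (0 : Fin 3) ≠ 2 := by decide
  refine ⟨1, 2, h12, ?_⟩
  have com : ∀ {i j k : Fin 3} (hij : i ≠ j) (hjk : j ≠ k) (hik : i ≠ k),
      φ (rhoN j k hjk) * φ (rhoN i j hij) =
        φ (rhoN i j hij) * φ (rhoN j k hjk) * φ (rhoN i k hik) := by
    intro i j k hij hjk hik
    have h := congrArg φ (rhoN_comm hij hjk hik)
    rwa [map_mul, map_mul, map_mul] at h
  have com2 : ∀ {i j k : Fin 3} (hik : i ≠ k) (hjk : j ≠ k) (hij : i ≠ j),
      φ (rhoN i k hik) * φ (rhoN j k hjk) = φ (rhoN j k hjk) * φ (rhoN i k hik) := by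
    intro i j k hik hjk hij
    have h := congrArg φ (rhoN_commute hik hjk hij hjk.symm hik)
    rwa [map_mul, map_mul] at h
  have st : Stein (φ (rhoN 0 1 h01)) (φ (rhoN 1 2 h12)) (φ (rhoN 2 0 h20)) (φ (rhoN 1 0 h10))
      (φ (rhoN 2 1 h21)) (φ (rhoN 0 2 h02)) :=
    { ha := rho_sq_one hφ h01
      hb := rho_sq_one hφ h12
      hc := rho_sq_one hφ h20
      hA := rho_sq_one hφ h10
      hB := rho_sq_one hφ h21
      hC := rho_sq_one hφ h02
      aC := (rho_commute hφ h01 h02 h12).eq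
      Ab := (rho_commute hφ h10 h12 h02).eq
      cB := (rho_commute hφ h20 h21 h01).eq
      aB := com2 h01 h21 h02
      Cb := com2 h02 h12 h01
      Ac := com2 h10 h20 h12
      ba := com h01 h12 h02
      cb := com h12 h20 h10
      ac := com h20 h01 h21
      BC := com h02 h21 h01
      CA := com h10 h02 h12
      AB := com h21 h10 h20 }
  apply st.eq_one
  set σ : Equiv.Perm (Fin 3) := finRotate 3 with hσ
  set P := φ (permN σ) with hP
  have s1 : P * φ (rhoN 0 1 h01) = φ (rhoN 1 2 h12) * P :=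
    phi_swap φ h01 h12 σ (by decide) (by decide)
  have s2 : P * φ (rhoN 1 2 h12) = φ (rhoN 2 0 h20) * P :=
    phi_swap φ h12 h20 σ (by decide) (by decide)
  have P3 : P * (P * P) = 1 := by
    rw [hP, ← map_mul, ← map_mul, ← map_mul, ← map_mul]
    have : σ * (σ * σ) = 1 := by decide
    rw [this, map_one, map_one]
  have e : (P * φ (rhoN 0 1 h01)) ^ 3 =
      φ (rhoN 1 2 h12) * φ (rhoN 2 0 h20) * φ (rhoN 0 1 h01) := by
    set a := φ (rhoN 0 1 h01)
    set b := φ (rhoN 1 2 h12)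
    set c := φ (rhoN 2 0 h20)
    have : (P * a) ^ 3 = (P * a) * (P * a) * (P * a) := by
      simp only [pow_succ, pow_zero, one_mul]
    rw [this]
    nth_rewrite 1 [s1]
    nth_rewrite 1 [s1]
    have : b * P * (b * P) * (P * a) = b * (P * b) * (P * (P * a)) := by
      simp only [mul_assoc]
    rw [this, s2]
    have : b * (c * P) * (P * (P * a)) = b * c * (P * (P * P)) * a := by
      simp only [mul_assoc]
    rw [this, P3, mul_one]
  have h := hφ (permN σ * rhoN 0 1 h01)
  rw [map_mul, ← hP, show 12 = 3 * 4 from rfl, pow_mul, e] at h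
  have e2 : φ (rhoN 0 1 h01) * φ (rhoN 1 2 h12) * φ (rhoN 2 0 h20) =
      φ (rhoN 0 1 h01) * (φ (rhoN 1 2 h12) * φ (rhoN 2 0 h20) * φ (rhoN 0 1 h01)) *
        (φ (rhoN 0 1 h01))⁻¹ := by group
  rw [e2, conj_pow, h, mul_one, mul_inv_cancel]

/-- All transvections die, for an arbitrary index type with three elements. -/
theorem rho_twelve {α : Type} [Fintype α] [DecidableEq α] (h3 : Fintype.card α = 3)
    {φ : MulAut (FreeGroup α) →* Q} (hφ : ∀ g, φ g ^ 12 = 1) {k l : α} (hkl : k ≠ l) :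
    φ (rhoN k l hkl) = 1 := by
  obtain ⟨e⟩ : Nonempty (Fin 3 ≃ α) := ⟨(Fintype.equivFinOfCardEq h3).symm⟩
  set Ψ : MulAut (FreeGroup (Fin 3)) ≃* MulAut (FreeGroup α) :=
    MulAut.congr (freeGroupCongr e) with hΨ
  obtain ⟨i, j, hij, h⟩ := twelve (φ.comp Ψ.toMonoidHom) (fun g => hφ _)
  have h1 : Ψ (rhoN i j hij) = rhoN (e i) (e j) (e.injective.ne hij) := by
    apply aut_ext
    intro m
    change freeGroupCongr e (rhoN i j hij ((freeGroupCongr e).symm (of m))) = _
    obtain ⟨m, rfl⟩ := e.surjective m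
    have h2 : (freeGroupCongr e).symm (of (e m)) = of m := by simp
    rw [h2]
    by_cases hm : m = i
    · subst hm
      rw [rhoN_self, rhoN_self]
      simp
    · rw [rhoN_ne hij hm, rhoN_ne _ (e.injective.ne hm)]
      simp
  have h2 : φ (rhoN (e i) (e j) (e.injective.ne hij)) = 1 := by
    rw [← h1]
    exact h
  exact all_rho h2 hkl

end Three

end Pool.Agent.Work.OutFn
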