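import Mathlib

/-!
The determinant character of the automorphism group of a free group of finite rank.
-/

namespace Pool.Agent.Work.OutFn

open FreeGroup

variable {α : Type} [Fintype α] [DecidableEq α]

/-- the exponent sums of a word -/
def abN : FreeGroup α →* Multiplicative (α → ℤ) :=
  FreeGroup.lift (fun i => Multiplicative.ofAdd (Pi.single i 1))

omit [Fintype α] in
theorem abN_of (i : α) : (abN (of i)).toAdd = Pi.single i 1 := by simp [abN]

/-- the linear map induced on exponent sums by an endomorphism -/
noncomputable def linN (f : FreeGroup α →* FreeGroup α) : (α → ℤ) →ₗ[ℤ] (α → ℤ) :=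
  (Pi.basisFun ℤ α).constr ℤ (fun i => (abN (f (of i))).toAdd)

theorem linN_single (f : FreeGroup α →* FreeGroup α) (i : α) :
    linN f (Pi.single i 1) = (abN (f (of i))).toAdd := by
  have := (Pi.basisFun ℤ α).constr_basis ℤ (fun i => (abN (f (of i))).toAdd) i
  rwa [Pi.basisFun_apply] at this

theorem linN_abN (f : FreeGroup α →* FreeGroup α) (w : FreeGroup α) :
    linN f (abN w).toAdd = (abN (f w)).toAdd := by
  have h : ((linN f).toAddMonoidHom.toMultiplicative.comp abN : FreeGroup α →* _) =
      abN.comp f := by
    ext1 i
    apply Multiplicative.toAdd.injective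
    have := linN_single f i
    rw [← abN_of i] at this
    exact this
  have := DFunLike.congr_fun h w
  exact congrArg Multiplicative.toAdd this

/-- the action on exponent sums -/
noncomputable def linHomN : MulAut (FreeGroup α) →* Module.End ℤ (α → ℤ) where
  toFun g := linN g.toMonoidHom
  map_one' := by
    apply (Pi.basisFun ℤ α).ext
    intro i
    rw [Pi.basisFun_apply, linN_single]
    simp [abN_of]
  map_mul' g h := by
    apply (Pi.basisFun ℤ α).ext
    intro i
    rw [Pi.basisFun_apply, linN_single, Module.End.mul_apply, linN_single, linN_abN]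
    rfl

/-- the determinant character -/
theorem det_bound {α : Type} [Fintype α] [DecidableEq α] [Nonempty α] :
    ∃ χ : MulAut (FreeGroup α) →* ℤˣ, (∀ w, χ (MulAut.conj w) = 1) ∧
      ∀ (g : MulAut (FreeGroup α)) (i : α), g (of i) = (of i)⁻¹ →
        (∀ k, k ≠ i → g (of k) = of k) → χ g = -1 := by
  refine ⟨((LinearMap.det : Module.End ℤ (α → ℤ) →* ℤ).comp linHomN).toHomUnits, ?_, ?_⟩
  · intro w
    apply Units.ext
    rw [MonoidHom.coe_toHomUnits, MonoidHom.comp_apply]
    have : linHomN (MulAut.conj w) = (1 : Module.End ℤ (α → ℤ)) := by
      apply (Pi.basisFun ℤ α).ext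
      intro i
      rw [Pi.basisFun_apply]
      change linN _ _ = _
      rw [linN_single]
      have : (MulAut.conj w).toMonoidHom (of i) = w * of i * w⁻¹ := rfl
      have h2 : abN (w * of i * w⁻¹) = abN (of i) := by
        rw [_root_.map_mul abN, _root_.map_mul abN, _root_.map_inv abN, mul_comm (abN w),
          mul_inv_cancel_right]
      rw [this, h2, abN_of]
      rfl
    rw [this, _root_.map_one]
    rfl
  · intro g i hi hk
    apply Units.ext
    rw [MonoidHom.coe_toHomUnits, MonoidHom.comp_apply]
    have : linHomN g = Matrix.toLin' (Matrix.diagonal (fun k => if k = i then (-1 : ℤ) else 1)) := by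
      apply (Pi.basisFun ℤ α).ext
      intro k
      rw [Pi.basisFun_apply]
      change linN _ _ = _
      rw [linN_single]
      rw [Matrix.toLin'_apply, Matrix.mulVec_single_one]
      by_cases h : k = i
      · subst h
        have : g.toMonoidHom (of k) = (of k)⁻¹ := hi
        rw [this, _root_.map_inv, toAdd_inv, abN_of]
        funext j
        by_cases hj : j = k
        · subst hj; simp
        · simp [hj]
      · have : g.toMonoidHom (of k) = of k := hk k h
        rw [this, abN_of]
        funext j
        by_cases hj : j = k
        · subst hj; simp [h]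
        · simp [hj]
    rw [this, LinearMap.det_toLin', Matrix.det_diagonal]
    simp [Finset.prod_ite_eq']

end Pool.Agent.Work.OutFn
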