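import Pool.Agent.Work.MP_ac5e87_al.Small

/-!
# The prime 2

Let `φ` be a homomorphism from `Aut(F_n)`, `n ≥ 3`, with `φ(g) ^ p = 1` for all `g`.  If
`2 ^ b < n` and `2 ^ (b + 1)` does not divide `p` then `φ` kills all transvections.
-/

namespace Pool.Agent.Work.OutFn

open FreeGroup hiding map_mul map_inv map_one

/-- The cyclic shift. -/
theorem addRight_pow_apply {A : Type*} [AddGroupWithOne A] (s : ℕ) (x : A) :
    ((Equiv.addRight (1 : A)) ^ s) x = x + s := by
  induction s with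
  | zero => simp
  | succ s ih =>
    rw [pow_succ', Equiv.Perm.mul_apply, ih]
    simp [add_assoc]

theorem addRight_pow_card {m : ℕ} : (Equiv.addRight (1 : ZMod m)) ^ m = 1 := by
  ext x
  rw [addRight_pow_apply]
  simp

variable {α : Type} [DecidableEq α] {Q : Type*} [Group Q]

omit [DecidableEq α] in
theorem phi_perm_pow (φ : MulAut (FreeGroup α) →* Q) (σ : Equiv.Perm α) (s : ℕ) :
    φ (permN σ) ^ s = φ (permN (σ ^ s)) := by
  rw [← map_pow, ← map_pow]

/-- All inversions have the same image. -/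
theorem eps_eq_of_cycle {b p : ℕ} (ι : ZMod (2 ^ b) ↪ α) {γ : α} (hγ : ∀ x, ι x ≠ γ)
    (hp : ¬ 2 ^ (b + 1) ∣ p) {φ : MulAut (FreeGroup α) →* Q} (hφ : ∀ g, φ g ^ p = 1) (i j : α) :
    φ (epsN i) = φ (epsN j) := by
  set P : Equiv.Perm α := Equiv.Perm.viaEmbeddingHom ι (Equiv.addRight 1) with hPdef
  have hPs : ∀ s : ℕ, (P ^ s) (ι 0) = ι s := by
    intro s
    rw [hPdef, ← map_pow, Equiv.Perm.viaEmbeddingHom_apply, Equiv.Perm.viaEmbedding_apply,
      addRight_pow_apply, zero_add]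
  have hPm : P ^ (2 ^ b) = 1 := by
    rw [hPdef, ← map_pow, addRight_pow_card, map_one]
  have hcs : ∀ s : ℕ, φ (permN P) ^ s * φ (epsN (ι 0)) * (φ (permN P) ^ s)⁻¹ =
      φ (epsN (ι s)) := by
    intro s
    rw [phi_perm_pow, phi_perm_eps, hPs]
  have hcomm : ∀ k l : α, Commute (φ (epsN k)) (φ (epsN l)) := by
    intro k l
    rw [commute_iff_eq, ← map_mul, ← map_mul, epsN_comm]
  have hne : ∀ s : ℕ, 0 < s → s < 2 ^ b → ι s ≠ ι 0 := by
    intro s hs hs' h
    have h1 : ((s : ℕ) : ZMod (2 ^ b)) = 0 := ι.injective h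
    rw [ZMod.natCast_eq_zero_iff] at h1
    exact absurd (Nat.le_of_dvd hs h1) (by omega)
  have hx : Commute (φ (permN (Equiv.swap (ι 0) γ))) (φ (epsN (ι 0))) := by
    apply wlemma Nat.prime_two hp (P := φ (permN P))
    · rw [phi_perm_pow, hPm, map_one, map_one]
    · rw [pow_two, eps_sq]
    · intro s _ t _
      rw [hcs, hcs]
      exact hcomm _ _
    · intro s hs hs'
      rw [hcs, commute_iff_eq, ← map_mul, ← map_mul, permN_mul_epsN,
        Equiv.swap_apply_of_ne_of_ne (hne s hs hs') (hγ _)]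
    · rw [← map_mul]
      exact hφ _
  have h1 : φ (epsN (ι 0)) = φ (epsN γ) := by
    have h2 := phi_perm_eps φ (Equiv.swap (ι 0) γ) (ι 0)
    rw [hx.eq, mul_inv_cancel_right, Equiv.swap_apply_left] at h2
    exact h2
  by_cases hij : i = j
  · rw [hij]
  obtain ⟨σ, h2, h3⟩ := exists_perm (hγ 0) hij
  rw [← h2, ← h3, ← phi_perm_eps, ← phi_perm_eps, h1]

theorem rho_sq [Fintype α] (h3 : 3 ≤ Fintype.card α) {φ : MulAut (FreeGroup α) →* Q}
    (he : ∀ i j, φ (epsN i) = φ (epsN j)) {i j : α} (hij : i ≠ j) :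
    φ (rhoN i j hij) * φ (rhoN i j hij) = 1 ∧ φ (lamN i j hij) = φ (rhoN i j hij) := by
  obtain ⟨k, hk⟩ : ∃ k, k ∉ ({i, j} : Finset α) := by
    by_contra hcon
    push Not at hcon
    have h1 : Finset.univ ⊆ ({i, j} : Finset α) := fun k _ => hcon k
    have h2 := Finset.card_le_card h1
    have h4 : ({i, j} : Finset α).card ≤ 2 := Finset.card_le_two
    rw [Finset.card_univ] at h2
    omega
  simp only [Finset.mem_insert, Finset.mem_singleton, not_or] at hk
  have h1 := congrArg φ (rhoN_epsN_snd hij)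
  have h2 := congrArg φ (rhoN_epsN hij hk.1 hk.2)
  rw [map_mul, map_mul] at h1 h2
  rw [he j k, h2, mul_assoc] at h1
  have h5 := mul_eq_left.1 h1
  refine ⟨h5, ?_⟩
  rw [lamN, map_mul, map_mul, map_inv, he i k]
  have h6 : (φ (rhoN i j hij))⁻¹ = φ (rhoN i j hij) := inv_eq_of_mul_eq_one_left h5
  rw [h6, ← h2, mul_assoc, eps_sq, mul_one]

theorem even_case [Fintype α] {b p : ℕ} (hb : 2 ^ b < Fintype.card α)
    (h3 : 3 ≤ Fintype.card α) (hp : ¬ 2 ^ (b + 1) ∣ p) {φ : MulAut (FreeGroup α) →* Q}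
    (hφ : ∀ g, φ g ^ p = 1) {i j : α} (hij : i ≠ j) : φ (rhoN i j hij) = 1 := by
  have : NeZero (2 ^ b) := ⟨by positivity⟩
  have hcard : Fintype.card (ZMod (2 ^ b)) = 2 ^ b := ZMod.card _
  obtain ⟨ι⟩ : Nonempty (ZMod (2 ^ b) ↪ α) :=
    Function.Embedding.nonempty_of_card_le (by rw [hcard]; omega)
  obtain ⟨γ, hγ⟩ : ∃ γ, ∀ x, ι x ≠ γ := by
    by_contra hcon
    push Not at hcon
    have h1 : Function.Surjective ι := hcon
    have h2 := Fintype.card_le_of_surjective _ h1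
    omega
  have he := eps_eq_of_cycle ι hγ hp hφ
  have hsq := fun (i j : α) (hij : i ≠ j) => rho_sq h3 he hij
  rcases Nat.eq_zero_or_pos b with hb0 | hb0
  · subst hb0
    have h1 : φ (rhoN i j hij) ^ 2 = 1 := by
      rw [pow_two]
      exact (hsq i j hij).1
    have h2 : orderOf (φ (rhoN i j hij)) ∣ 2 := orderOf_dvd_of_pow_eq_one h1
    have h4 : orderOf (φ (rhoN i j hij)) ∣ p := orderOf_dvd_of_pow_eq_one (hφ _)
    rcases (Nat.dvd_prime Nat.prime_two).1 h2 with h5 | h5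
    · exact orderOf_eq_one_iff.1 h5
    · rw [h5] at h4
      exact absurd (by simpa using h4) hp
  have h01 : ι 0 ≠ ι 1 := by
    intro h
    have h1 : ((1 : ℕ) : ZMod (2 ^ b)) = 0 := by
      rw [Nat.cast_one]
      exact (ι.injective h).symm
    rw [ZMod.natCast_eq_zero_iff, Nat.dvd_one] at h1
    have h2 : 1 < 2 ^ b := Nat.one_lt_two_pow hb0.ne'
    omega
  set P : Equiv.Perm α := Equiv.Perm.viaEmbeddingHom ι (Equiv.addRight 1) with hPdef
  have hPs : ∀ s : ℕ, (P ^ s) (ι 0) = ι s := by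
    intro s
    rw [hPdef, ← map_pow, Equiv.Perm.viaEmbeddingHom_apply, Equiv.Perm.viaEmbedding_apply,
      addRight_pow_apply, zero_add]
  have hPγ : ∀ s : ℕ, (P ^ s) γ = γ := by
    intro s
    rw [hPdef, ← map_pow, Equiv.Perm.viaEmbeddingHom_apply]
    apply Equiv.Perm.viaEmbedding_apply_of_notMem
    rintro ⟨x, hx⟩
    exact hγ x hx
  have hPm : P ^ (2 ^ b) = 1 := by
    rw [hPdef, ← map_pow, addRight_pow_card, map_one]
  have hcs : ∀ s : ℕ, φ (permN P) ^ s * φ (rhoN γ (ι 0) (hγ 0).symm) * (φ (permN P) ^ s)⁻¹ =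
      φ (rhoN γ (ι s) (hγ s).symm) := by
    intro s
    rw [phi_perm_pow, phi_perm_rho]
    congr 1
    apply aut_ext
    intro k
    by_cases hk : k = γ
    · rw [hk, rhoN_self, rhoN_of, hPγ, if_pos rfl, hPs]
    · rw [rhoN_ne _ hk, rhoN_of, hPγ, if_neg hk]
  have hne : ∀ s : ℕ, 0 < s → s < 2 ^ b → ι s ≠ ι 0 := by
    intro s hs hs' h
    have h1 : ((s : ℕ) : ZMod (2 ^ b)) = 0 := ι.injective h
    rw [ZMod.natCast_eq_zero_iff] at h1
    exact absurd (Nat.le_of_dvd hs h1) (by omega)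
  have hx : Commute (φ (rhoN (ι 0) (ι 1) h01)) (φ (rhoN γ (ι 0) (hγ 0).symm)) := by
    apply wlemma Nat.prime_two hp (P := φ (permN P))
    · rw [phi_perm_pow, hPm, map_one, map_one]
    · rw [pow_two, (hsq _ _ _).1]
    · intro s _ t _
      rw [hcs, hcs, commute_iff_eq]
      have h5 := congrArg φ (rhoN_lamN (hγ s).symm (hγ t).symm)
      rw [map_mul, map_mul, (hsq γ (ι t) (hγ t).symm).2] at h5
      exact h5
    · intro s hs hs'
      rw [hcs, commute_iff_eq, ← map_mul, ← map_mul,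
        rhoN_commute h01 (hγ s).symm (hγ 0) (hγ 1) (hne s hs hs').symm]
    · rw [← map_mul]
      exact hφ _
  exact all_rho (rho_of_commute (hγ 1).symm hx.symm) hij

end Pool.Agent.Work.OutFn
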