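import Pool.Agent.Work.MP_ac5e87_al.Odd
import Pool.Agent.Work.MP_ac5e87_al.Det

/-!
# Quotients of `Out(F_n)` by `p`-th powers
-/

namespace Pool.Agent.Work.OutFn

open FreeGroup hiding map_mul map_inv map_one

/-- The subgroup of `Aut(F)` generated by the inner automorphisms and the normal closure of all
`p`-th powers. -/
def powSub (α : Type) (p : ℕ) : Subgroup (MulAut (FreeGroup α)) :=
  (MulAut.conj : FreeGroup α →* MulAut (FreeGroup α)).range ⊔
    Subgroup.normalClosure {g : MulAut (FreeGroup α) | ∃ a : MulAut (FreeGroup α), g = a ^ p}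

theorem conj_range_normal (α : Type) :
    (MulAut.conj : FreeGroup α →* MulAut (FreeGroup α)).range.Normal := by
  constructor
  rintro _ ⟨w, rfl⟩ g
  refine ⟨g w, ?_⟩
  ext x
  simp

theorem powSub_normal (α : Type) (p : ℕ) : (powSub α p).Normal := by
  have := conj_range_normal α
  exact Subgroup.sup_normal _ _

theorem pow_mem_powSub {α : Type} {p : ℕ} (g : MulAut (FreeGroup α)) : g ^ p ∈ powSub α p :=
  (le_sup_right : _ ≤ powSub α p) (Subgroup.subset_normalClosure ⟨g, rfl⟩)

theorem conj_mem_powSub {α : Type} {p : ℕ} (w : FreeGroup α) : MulAut.conj w ∈ powSub α p :=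
  (le_sup_left : _ ≤ powSub α p) ⟨w, rfl⟩

/-- The condition of the theorem. -/
def Cond (n p : ℕ) : Prop :=
  ∃ r b : ℕ, r.Prime ∧ r ^ b * (r - 1) ≤ n ∧ (r = 2 → 2 ^ b < n) ∧ ¬ r ^ (b + 1) ∣ p

theorem kill_rho {α : Type} [Fintype α] [DecidableEq α] {Q : Type*} [Group Q] {p : ℕ}
    (h3 : 3 ≤ Fintype.card α) (h : Cond (Fintype.card α) p) {φ : MulAut (FreeGroup α) →* Q}
    (hφ : ∀ g, φ g ^ p = 1) {i j : α} (hij : i ≠ j) : φ (rhoN i j hij) = 1 := by
  obtain ⟨r, b, hr, h1, h2, h4⟩ := h
  by_cases h5 : r = 2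
  · subst h5
    exact even_case (h2 rfl) h3 h4 hφ hij
  · exact odd_case hr h5 h1 h3 h4 hφ hij

/-- The index once the transvections die. -/
theorem index_of_rho {α : Type} [Fintype α] [DecidableEq α] {p : ℕ} (h3 : 1 ≤ Fintype.card α)
    (h : ∀ (i j : α) (hij : i ≠ j), rhoN i j hij ∈ powSub α p) :
    (powSub α p).index = Nat.gcd 2 p := by
  have := powSub_normal α p
  obtain ⟨i⟩ : Nonempty α := Fintype.card_pos_iff.1 (by omega)
  set φ : MulAut (FreeGroup α) →* MulAut (FreeGroup α) ⧸ powSub α p :=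
    QuotientGroup.mk' (powSub α p) with hφ
  have hker : ∀ g, φ g = 1 ↔ g ∈ powSub α p := fun g => QuotientGroup.eq_one_iff g
  have hrho : ∀ (i j : α) (hij : i ≠ j), φ (rhoN i j hij) = 1 := fun i j hij =>
    (hker _).2 (h i j hij)
  set e := φ (epsN i) with he
  have htop : Subgroup.zpowers e = ⊤ := by
    rw [eq_top_iff]
    intro q _
    obtain ⟨g, rfl⟩ := QuotientGroup.mk'_surjective (powSub α p) q
    exact range_of_rho hrho i g
  have hcard : (powSub α p).index = orderOf e := by
    rw [Subgroup.index, ← Nat.card_zpowers, htop]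
    exact (Nat.card_congr Subgroup.topEquiv.toEquiv).symm
  have h2 : e ^ 2 = 1 := by rw [pow_two, eps_sq]
  have hp : e ^ p = 1 := by
    rw [he, ← map_pow, hker]
    exact pow_mem_powSub _
  rw [hcard]
  have hd2 : orderOf e ∣ 2 := orderOf_dvd_of_pow_eq_one h2
  have hdp : orderOf e ∣ p := orderOf_dvd_of_pow_eq_one hp
  by_cases hpar : 2 ∣ p
  · rw [Nat.gcd_eq_left hpar]
    rcases (Nat.dvd_prime Nat.prime_two).1 hd2 with h5 | h5
    · exfalso
      have hne : Nonempty α := ⟨i⟩
      obtain ⟨χ, hχ1, hχ2⟩ := det_bound (α := α)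
      have h6 : epsN i ∈ powSub α p := by
        rw [← hker]
        exact orderOf_eq_one_iff.1 h5
      have h7 : powSub α p ≤ χ.ker := by
        rw [powSub, sup_le_iff]
        constructor
        · rintro _ ⟨w, rfl⟩
          exact hχ1 w
        · apply Subgroup.normalClosure_le_normal
          rintro _ ⟨a, rfl⟩
          obtain ⟨q, rfl⟩ := hpar
          change χ (a ^ (2 * q)) = 1
          rw [map_pow, pow_mul]
          have h8 : χ a ^ 2 = 1 := by
            rcases Int.units_eq_one_or (χ a) with h9 | h9 <;> rw [h9] <;> rfl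
          rw [h8, one_pow]
      have h8 : χ (epsN i) = 1 := h7 h6
      have h9 := hχ2 (epsN i) i (epsN_self i) (fun k hk => epsN_ne hk)
      rw [h9] at h8
      exact absurd h8 (by decide)
    · exact h5
  · have h5 : Nat.Coprime 2 p := (Nat.Prime.coprime_iff_not_dvd Nat.prime_two).2 hpar
    rw [h5]
    exact Nat.dvd_one.1 (h5 ▸ Nat.dvd_gcd hd2 hdp)

/-- The main theorem for torsion. -/
theorem index_powSub {α : Type} [Fintype α] [DecidableEq α] {p : ℕ} (h3 : 3 ≤ Fintype.card α)
    (h : Cond (Fintype.card α) p) : (powSub α p).index = Nat.gcd 2 p := by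
  have := powSub_normal α p
  apply index_of_rho (by omega)
  intro i j hij
  rw [← QuotientGroup.eq_one_iff]
  refine kill_rho (φ := QuotientGroup.mk' (powSub α p)) h3 h (fun g => ?_) hij
  rw [← map_pow]
  exact (QuotientGroup.eq_one_iff _).2 (pow_mem_powSub g)

end Pool.Agent.Work.OutFn
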