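import Mathlib

/-!
Nielsen's theorem, part A: longest common prefixes and lengths of products in a free group.
-/

namespace Pool.Agent.Work.OutFn

open FreeGroup

section lists

variable {β : Type} [DecidableEq β]

/-- the length of the longest common prefix of two lists -/
def lcp : List β → List β → ℕ
  | a :: l, b :: m => if a = b then lcp l m + 1 else 0
  | [], _ => 0
  | _ :: _, [] => 0

theorem le_lcp_iff (k : ℕ) (l m : List β) :
    k ≤ lcp l m ↔ k ≤ l.length ∧ k ≤ m.length ∧ l.take k = m.take k := by
  induction l generalizing m k with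
  | nil =>
    simp only [lcp, List.length_nil, Nat.le_zero]
    constructor
    · rintro rfl; simp
    · rintro ⟨h, _⟩; exact h
  | cons a l ih =>
    cases m with
    | nil =>
      simp only [lcp, List.length_nil, Nat.le_zero]
      constructor
      · rintro rfl; simp
      · rintro ⟨_, h, _⟩; exact h
    | cons b m =>
      cases k with
      | zero => simp
      | succ k =>
        by_cases hab : a = b
        · subst hab
          simp [lcp, ih]
        · simp [lcp, hab]

theorem lcp_comm (l m : List β) : lcp l m = lcp m l := by
  apply le_antisymm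
  · rw [le_lcp_iff]
    have h := (le_lcp_iff (lcp l m) l m).1 le_rfl
    exact ⟨h.2.1, h.1, h.2.2.symm⟩
  · rw [le_lcp_iff]
    have h := (le_lcp_iff (lcp m l) m l).1 le_rfl
    exact ⟨h.2.1, h.1, h.2.2.symm⟩

theorem lcp_trans {k : ℕ} {l m n : List β} (h1 : k ≤ lcp l m) (h2 : k ≤ lcp m n) :
    k ≤ lcp l n := by
  rw [le_lcp_iff] at *
  exact ⟨h1.1, h2.2.1, h1.2.2.trans h2.2.2⟩

theorem lcp_eq_of_lt {l m n : List β} (h : lcp l m < lcp m n) : lcp l n = lcp l m := by
  apply le_antisymm
  · by_contra hc
    push Not at hc
    have h1 : lcp l m + 1 ≤ lcp l n := hc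
    have h2 : lcp l m + 1 ≤ lcp n m := by rw [lcp_comm n m]; exact h
    have := lcp_trans h1 h2
    omega
  · exact lcp_trans le_rfl h.le

theorem lcp_le_left (l m : List β) : lcp l m ≤ l.length :=
  ((le_lcp_iff (lcp l m) l m).1 le_rfl).1

theorem lcp_le_right (l m : List β) : lcp l m ≤ m.length :=
  ((le_lcp_iff (lcp l m) l m).1 le_rfl).2.1

theorem take_lcp (l m : List β) : l.take (lcp l m) = m.take (lcp l m) :=
  ((le_lcp_iff (lcp l m) l m).1 le_rfl).2.2

end lists

variable {α : Type} [DecidableEq α]

theorem isReduced_invRev {L : List (α × Bool)} (h : IsReduced L) : IsReduced (invRev L) := by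
  rw [isReduced_iff_reduce_eq] at *
  rw [reduce_invRev, h]

theorem norm_mk_of_isReduced {L : List (α × Bool)} (h : IsReduced L) : (mk L).norm = L.length := by
  rw [FreeGroup.norm, toWord_mk, h.reduce_eq]

omit [DecidableEq α] in
theorem isReduced_tail {a : α × Bool} {L : List (α × Bool)} (h : IsReduced (a :: L)) :
    IsReduced L := List.IsChain.tail h

theorem norm_lists (L M : List (α × Bool)) (hL : IsReduced L) (hM : IsReduced M) :
    ((mk L)⁻¹ * mk M).norm + 2 * lcp L M = L.length + M.length := by
  induction L generalizing M with
  | nil =>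
    have : ((mk [] : FreeGroup α)⁻¹ * mk M) = mk M := by
      rw [← one_eq_mk]; simp
    rw [this, norm_mk_of_isReduced hM]; simp [lcp]
  | cons a L ih =>
    cases M with
    | nil =>
      have : ((mk (a :: L) : FreeGroup α)⁻¹ * mk []) = (mk (a :: L))⁻¹ := by
        rw [← one_eq_mk]; simp
      rw [this, norm_inv_eq, norm_mk_of_isReduced hL]; simp [lcp]
    | cons b M =>
      by_cases hab : a = b
      · subst hab
        have h1 : ∀ N : List (α × Bool), (mk (a :: N) : FreeGroup α) = mk [a] * mk N := by
          intro N; rw [mul_mk]; rfl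
        have h2 : ((mk (a :: L) : FreeGroup α)⁻¹ * mk (a :: M)) = (mk L)⁻¹ * mk M := by
          rw [h1 L, h1 M]; group
        rw [h2]
        have := ih M (isReduced_tail hL) (isReduced_tail hM)
        simp only [lcp, if_true, List.length_cons]
        omega
      · have h3 : IsReduced (invRev (a :: L) ++ (b :: M)) := by
          rw [FreeGroup.IsReduced, List.isChain_append]
          refine ⟨isReduced_invRev hL, hM, ?_⟩
          intro x hx y hy
          have hx' : x = (a.1, !a.2) := by
            have : (invRev (a :: L)).getLast? = some (a.1, !a.2) := by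
              simp [invRev]
            rw [this] at hx
            simpa using hx.symm
          have hy' : y = b := by simpa using hy.symm
          subst hx' hy'
          intro h
          simp only at h ⊢
          have : a.2 ≠ y.2 := fun h' => hab (Prod.ext h h')
          cases ha : a.2 <;> cases hb : y.2 <;> simp_all
        rw [inv_mk, mul_mk, norm_mk_of_isReduced h3]
        simp [lcp, hab]

/-- the Gromov product in the Cayley tree -/
def gp (a b : FreeGroup α) : ℕ := lcp a.toWord b.toWord

theorem norm_gp (a b : FreeGroup α) : (a⁻¹ * b).norm + 2 * gp a b = a.norm + b.norm := by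
  have := norm_lists a.toWord b.toWord isReduced_toWord isReduced_toWord
  rw [mk_toWord, mk_toWord] at this
  exact this

theorem gp_comm (a b : FreeGroup α) : gp a b = gp b a := lcp_comm _ _

theorem gp_eq_of_lt {a b c : FreeGroup α} (h : gp a b < gp b c) : gp a c = gp a b :=
  lcp_eq_of_lt h

theorem norm_gp' (a b : FreeGroup α) : (a * b).norm + 2 * gp a⁻¹ b = a.norm + b.norm := by
  have := norm_gp a⁻¹ b
  rw [inv_inv, norm_inv_eq] at this
  exact this

theorem isReduced_of_length {L : List (α × Bool)} (h : (mk L).norm = L.length) : IsReduced L := by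
  rw [FreeGroup.norm, toWord_mk] at h
  rw [isReduced_iff_reduce_eq]
  exact (reduce.red (L := L)).sublist.eq_of_length h

/-- an element and its inverse have a common prefix shorter than half the length -/
theorem gp_inv_self {z : FreeGroup α} (hz : z ≠ 1) : 2 * gp z⁻¹ z < z.norm := by
  by_contra hc
  push Not at hc
  set L := z.toWord with hL
  have hred : IsReduced L := isReduced_toWord
  have hn : z.norm = L.length := rfl
  have hpos : 0 < L.length := by
    rw [← hn]
    rcases Nat.eq_zero_or_pos z.norm with h | h
    · exact absurd (norm_eq_zero.1 h) hz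
    · exact h
  set k := gp z⁻¹ z with hk
  have hkk : k = lcp (invRev L) L := by rw [hk, gp, toWord_inv]
  have ht : (invRev L).take k = L.take k := by rw [hkk]; exact take_lcp _ _
  have hkl : k ≤ L.length := by rw [hkk]; exact lcp_le_right _ _
  have key : ∀ i (hi : i < k), L[i]'(by omega) = ((L[L.length - 1 - i]'(by omega)).1,
      !(L[L.length - 1 - i]'(by omega)).2) := by
    intro i hi
    have h1 : (L.take k)[i]'(by simp; omega) = L[i]'(by omega) := by simp
    have h2 : ((invRev L).take k)[i]'(by simp; omega) = (invRev L)[i]'(by simp; omega) := by simp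
    rw [← h1]
    have h3 : (L.take k)[i]'(by simp; omega) = ((invRev L).take k)[i]'(by simp; omega) := by
      simp only [ht]
    rw [h3, h2]
    simp [invRev]
  rw [hn] at hc
  rcases Nat.even_or_odd' L.length with ⟨m, hm | hm⟩
  · have h1 := key (m - 1) (by omega)
    have hi : L.length - 1 - (m - 1) = m - 1 + 1 := by omega
    simp only [hi] at h1
    have h2 := (List.isChain_iff_getElem.1 hred) (m - 1) (by omega)
    have h3 := h2 (by rw [h1])
    rw [h1] at h3
    simp at h3
  · have h1 := key m (by omega)
    have hi : L.length - 1 - m = m := by omega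
    simp only [hi] at h1
    have := congrArg Prod.snd h1
    simp at this

end Pool.Agent.Work.OutFn
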