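import Pool.Agent.Work.MP_ac5e87_al.NA

/-!
Nielsen's theorem, part B: codes of words, the secondary measure, and Nielsen reduced tuples.
-/

namespace Pool.Agent.Work.OutFn

open FreeGroup

variable {α : Type} [DecidableEq α]

section code

variable [Fintype α]

/-- digits for the letters -/
noncomputable def dg (x : α × Bool) : ℕ := (Fintype.equivFin (α × Bool) x : ℕ)

omit [DecidableEq α] in
theorem dg_inj : Function.Injective (dg : α × Bool → ℕ) := by
  intro x y h
  exact (Fintype.equivFin (α × Bool)).injective (Fin.ext h)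

/-- the code of a word, in base the number of letters plus two -/
noncomputable def code (L : List (α × Bool)) : ℕ :=
  Nat.ofDigits (Fintype.card (α × Bool) + 2) (L.map dg)

omit [DecidableEq α] in
theorem code_inj {p q : List (α × Bool)} (h : p.length = q.length) (hc : code p = code q) :
    p = q := by
  have h1 : ∀ L : List (α × Bool), ∀ l ∈ L.map dg, l < Fintype.card (α × Bool) + 2 := by
    intro L l hl
    obtain ⟨x, _, rfl⟩ := List.mem_map.1 hl
    have := (Fintype.equivFin (α × Bool) x).2
    unfold dg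
    omega
  have h2 := Nat.ofDigits_inj_of_len_eq (b := Fintype.card (α × Bool) + 2) (by omega)
    (by simpa using h) (h1 p) (h1 q) hc
  exact (List.map_injective_iff.2 dg_inj) h2

omit [DecidableEq α] in
theorem code_append (p r : List (α × Bool)) :
    code (p ++ r) = code p + (Fintype.card (α × Bool) + 2) ^ p.length * code r := by
  unfold code
  rw [List.map_append, Nat.ofDigits_append, List.length_map]

/-- the secondary measure of an element -/
noncomputable def cd (x : FreeGroup α) : ℕ :=
  code (x.toWord.take ((x.norm + 1) / 2)) + code ((x⁻¹).toWord.take ((x.norm + 1) / 2))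

theorem cd_inv (x : FreeGroup α) : cd x⁻¹ = cd x := by
  unfold cd
  rw [norm_inv_eq, inv_inv, add_comm]

theorem swap {x x' : FreeGroup α} {p q u : List (α × Bool)} (hx : x.toWord = p ++ u)
    (hx' : x' = mk (q ++ u)) (hpq : p.length = q.length) (hp : 2 * p.length ≤ x.norm)
    (hn : x.norm ≤ x'.norm) (hc : code q < code p) : x'.norm = x.norm ∧ cd x' < cd x := by
  have hxn : x.norm = p.length + u.length := by
    rw [FreeGroup.norm, hx, List.length_append]
  have hle : x'.norm ≤ q.length + u.length := by
    rw [hx']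
    have := norm_mk_le (L₁ := q ++ u)
    rwa [List.length_append] at this
  have heq : x'.norm = x.norm := by omega
  refine ⟨heq, ?_⟩
  have hr : IsReduced (q ++ u) := by
    apply isReduced_of_length
    rw [← hx', heq, hxn, hpq, List.length_append]
  have hw : x'.toWord = q ++ u := by
    rw [hx', toWord_mk, hr.reduce_eq]
  unfold cd
  rw [heq, toWord_inv, toWord_inv, hw, hx, invRev_append, invRev_append]
  set h := (x.norm + 1) / 2 with hh
  have h1 : p.length ≤ h := by omega
  have h2 : h ≤ u.length := by omega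
  have e1 : (invRev u ++ invRev q).take h = (invRev u).take h := by
    rw [List.take_append_of_le_length]
    rwa [invRev_length]
  have e2 : (invRev u ++ invRev p).take h = (invRev u).take h := by
    rw [List.take_append_of_le_length]
    rwa [invRev_length]
  have e3 : (q ++ u).take h = q ++ u.take (h - q.length) := by
    rw [List.take_append, List.take_of_length_le (by omega)]
  have e4 : (p ++ u).take h = p ++ u.take (h - p.length) := by
    rw [List.take_append, List.take_of_length_le (by omega)]
  rw [e1, e2, e3, e4, code_append, code_append, hpq]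
  omega

end code

/-- signed member of a tuple -/
def sg (Y : α → FreeGroup α) (s : α × Bool) : FreeGroup α := cond s.2 (Y s.1) (Y s.1)⁻¹

omit [DecidableEq α] in
theorem sg_bar (Y : α → FreeGroup α) (s : α × Bool) : sg Y (s.1, !s.2) = (sg Y s)⁻¹ := by
  unfold sg
  cases h : s.2 <;> simp

section reduced

variable [Fintype α] {Y : α → FreeGroup α}

omit [DecidableEq α] [Fintype α] in
theorem sg_ne_one (h0 : ∀ k, Y k ≠ 1) (s : α × Bool) : sg Y s ≠ 1 := by
  unfold sg
  cases h : s.2 <;> simp [h0]

omit [Fintype α] in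
theorem N1 (h0 : ∀ k, Y k ≠ 1)
    (hm : ∀ s t : α × Bool, s.1 ≠ t.1 → (sg Y s).norm ≤ (sg Y s * sg Y t).norm)
    (s t : α × Bool) (hst : s.1 = t.1 → s.2 = t.2) :
    2 * gp (sg Y s)⁻¹ (sg Y t) ≤ (sg Y s).norm ∧ 2 * gp (sg Y s)⁻¹ (sg Y t) ≤ (sg Y t).norm := by
  by_cases h : s.1 = t.1
  · have : s = t := Prod.ext h (hst h)
    subst this
    have hne : sg Y s ≠ 1 := by
      unfold sg
      cases h : s.2 <;> simp [h0]
    have := gp_inv_self hne
    omega
  · have h1 := hm s t h
    have h2 := hm (t.1, !t.2) (s.1, !s.2) (fun h' => h h'.symm)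
    rw [sg_bar, sg_bar, ← mul_inv_rev, norm_inv_eq, norm_inv_eq] at h2
    have h3 := norm_gp' (sg Y s) (sg Y t)
    omega

/-- the combinatorial core: a minimal tuple is Nielsen reduced -/
theorem N2 (h0 : ∀ k, Y k ≠ 1)
    (hm : ∀ s t : α × Bool, s.1 ≠ t.1 → (sg Y s).norm ≤ (sg Y s * sg Y t).norm)
    (hc : ∀ s t : α × Bool, s.1 ≠ t.1 → (sg Y s * sg Y t).norm = (sg Y s).norm →
      cd (sg Y s) ≤ cd (sg Y s * sg Y t))
    (s t r : α × Bool) (hst : s.1 = t.1 → s.2 = t.2) (htr : t.1 = r.1 → t.2 = r.2) :
    gp (sg Y s)⁻¹ (sg Y t) + gp (sg Y t)⁻¹ (sg Y r) < (sg Y t).norm := by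
  by_contra hcon
  push Not at hcon
  have hsg : ∀ s : α × Bool, sg Y s ≠ 1 := by
    intro s
    unfold sg
    cases h : s.2 <;> simp [h0]
  have a1 := N1 h0 hm s t hst
  have a2 := N1 h0 hm t r htr
  have hst' : s.1 ≠ t.1 := by
    intro h
    have : s = t := Prod.ext h (hst h)
    subst this
    have := gp_inv_self (hsg s)
    omega
  have htr' : t.1 ≠ r.1 := by
    intro h
    have : t = r := Prod.ext h (htr h)
    subst this
    have := gp_inv_self (hsg t)
    omega
  set y := sg Y s with hy
  set z := sg Y t with hz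
  set w := sg Y r with hw
  set h := gp y⁻¹ z with hh
  have hh2 : gp z⁻¹ w = h := by omega
  have hzn : z.norm = 2 * h := by omega
  have hzl : z.toWord.length = 2 * h := hzn
  -- the two halves of z
  set p := z.toWord.take h with hp
  set q := (z⁻¹).toWord.take h with hq
  have hpl : p.length = h := by rw [hp, List.length_take]; omega
  have hql : q.length = h := by
    rw [hq, List.length_take, toWord_inv, invRev_length]; omega
  have hyp : (y⁻¹).toWord.take h = p := by rw [hp, hh]; exact take_lcp _ _
  have hwq : w.toWord.take h = q := by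
    rw [hq, ← hh2]; exact (take_lcp _ _).symm
  have hqd : q = invRev (z.toWord.drop h) := by
    have : z.toWord = p ++ z.toWord.drop h := (List.take_append_drop h _).symm
    rw [hq, toWord_inv]
    conv_lhs => rw [this, invRev_append]
    rw [List.take_append_of_le_length (by rw [invRev_length, List.length_drop]; omega),
      List.take_of_length_le (by rw [invRev_length, List.length_drop]; omega)]
  have hzpq : z = mk p * (mk q)⁻¹ := by
    rw [inv_mk, hqd, invRev_invRev, mul_mk, hp, List.take_append_drop, mk_toWord]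
  have hpq : p ≠ q := by
    intro h'
    rw [h', mul_inv_cancel] at hzpq
    exact hsg t hzpq
  have hcode : code p ≠ code q := fun h' => hpq (code_inj (by rw [hpl, hql]) h')
  rcases lt_or_gt_of_ne hcode with hlt | hlt
  · -- replace w by z * w
    set v := w.toWord.drop h with hv
    have hwv : w.toWord = q ++ v := by rw [← hwq, hv, List.take_append_drop]
    have hzw : z * w = mk (p ++ v) := by
      have : w = mk q * mk v := by rw [mul_mk, ← hwv, mk_toWord]
      rw [this, hzpq, ← mul_mk]; group
    have b1 := hm (r.1, !r.2) (t.1, !t.2) (fun h' => htr' h'.symm)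
    have b2 := hc (r.1, !r.2) (t.1, !t.2) (fun h' => htr' h'.symm)
    rw [sg_bar, sg_bar, ← mul_inv_rev, norm_inv_eq, norm_inv_eq] at b1
    rw [sg_bar, sg_bar, ← mul_inv_rev, norm_inv_eq, norm_inv_eq, cd_inv, cd_inv] at b2
    have := swap hwv hzw (by rw [hpl, hql]) (by rw [hql]; omega) b1 hlt
    exact absurd this.2 (not_lt.2 (b2 this.1))
  · -- replace y by y * z
    set u := (y⁻¹).toWord.drop h with hu
    have hyu : (y⁻¹).toWord = p ++ u := by rw [← hyp, hu, List.take_append_drop]
    have hyz : (y * z)⁻¹ = mk (q ++ u) := by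
      have : y⁻¹ = mk p * mk u := by rw [mul_mk, ← hyu, mk_toWord]
      rw [mul_inv_rev, this, hzpq, ← mul_mk]; group
    have b1 := hm s t hst'
    have b2 := hc s t hst'
    have := swap hyu hyz (by rw [hpl, hql]) (by rw [hpl, norm_inv_eq]; omega)
      (by rw [norm_inv_eq, norm_inv_eq]; exact b1) hlt
    rw [norm_inv_eq, norm_inv_eq, cd_inv, cd_inv] at this
    exact absurd this.2 (not_lt.2 (b2 this.1))

omit [Fintype α] in
/-- local to global: a reduced word in a Nielsen reduced tuple is long -/
theorem long (h0 : ∀ k, Y k ≠ 1)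
    (n1 : ∀ s t : α × Bool, (s.1 = t.1 → s.2 = t.2) →
      2 * gp (sg Y s)⁻¹ (sg Y t) ≤ (sg Y t).norm)
    (n2 : ∀ s t r : α × Bool, (s.1 = t.1 → s.2 = t.2) → (t.1 = r.1 → t.2 = r.2) →
      gp (sg Y s)⁻¹ (sg Y t) + gp (sg Y t)⁻¹ (sg Y r) < (sg Y t).norm)
    (L : List (α × Bool)) (s : α × Bool) (hL : IsReduced (s :: L)) (t : α × Bool)
    (hts : t.1 = s.1 → t.2 = s.2) :
    gp (sg Y t)⁻¹ (((s :: L).map (sg Y)).prod) = gp (sg Y t)⁻¹ (sg Y s) ∧
      L.length + 1 + gp (sg Y t)⁻¹ (sg Y s) ≤ (((s :: L).map (sg Y)).prod).norm := by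
  induction L generalizing s t with
  | nil =>
    simp only [List.map_cons, List.map_nil, List.prod_cons, List.prod_nil, mul_one, true_and,
      List.length_nil]
    have h1 := n1 t s hts
    have h2 : 0 < (sg Y s).norm := by
      rcases Nat.eq_zero_or_pos (sg Y s).norm with h | h
      · exfalso
        have h3 := norm_eq_zero.1 h
        unfold sg at h3
        cases h4 : s.2 <;> simp [h4, h0] at h3
      · exact h
    omega
  | cons s' L ih =>
    have hred := hL
    rw [FreeGroup.IsReduced, List.isChain_cons_cons] at hred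
    have ih' := ih s' hred.2 s hred.1
    rw [List.map_cons, List.prod_cons]
    set W := ((s' :: L).map (sg Y)).prod with hW
    have c1 := norm_gp' (sg Y s) W
    have c2 := norm_gp (sg Y s) (sg Y s * W)
    rw [inv_mul_cancel_left] at c2
    have c3 := n2 t s s' hts hred.1
    rw [ih'.1] at c1
    have c4 : gp (sg Y t)⁻¹ (sg Y s) < gp (sg Y s) (sg Y s * W) := by omega
    refine ⟨gp_eq_of_lt c4, ?_⟩
    rw [List.length_cons]
    have := ih'.2
    omega

omit [Fintype α] in
theorem long' (h0 : ∀ k, Y k ≠ 1)
    (n1 : ∀ s t : α × Bool, (s.1 = t.1 → s.2 = t.2) →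
      2 * gp (sg Y s)⁻¹ (sg Y t) ≤ (sg Y t).norm)
    (n2 : ∀ s t r : α × Bool, (s.1 = t.1 → s.2 = t.2) → (t.1 = r.1 → t.2 = r.2) →
      gp (sg Y s)⁻¹ (sg Y t) + gp (sg Y t)⁻¹ (sg Y r) < (sg Y t).norm)
    (x : FreeGroup α) : x.norm ≤ (FreeGroup.lift Y x).norm := by
  have hx : FreeGroup.lift Y x = (x.toWord.map (sg Y)).prod := by
    conv_lhs => rw [← mk_toWord (x := x)]
    rw [FreeGroup.lift_mk]
    rfl
  rw [hx, FreeGroup.norm]
  have hr : IsReduced x.toWord := isReduced_toWord
  cases h : x.toWord with
  | nil => simp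
  | cons s L =>
    rw [h] at hr
    have := (long h0 n1 n2 L s hr s (fun _ => rfl)).2
    rw [List.length_cons]
    omega

end reduced

end Pool.Agent.Work.OutFn
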