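import Pool.Agent.Work.MP_ac5e87_al.NB

/-!
Nielsen's theorem: the automorphism group of a free group of finite rank is generated by
transvections, inversions and permutations.
-/

namespace Pool.Agent.Work.OutFn

open FreeGroup

variable {α : Type} [DecidableEq α]

/-- the transvection sending `x_i` to `x_i * x_j` -/
def rhoN (i j : α) (hij : i ≠ j) : MulAut (FreeGroup α) :=
  MonoidHom.toMulEquiv
    (FreeGroup.lift (fun k => if k = i then of i * of j else of k))
    (FreeGroup.lift (fun k => if k = i then of i * (of j)⁻¹ else of k))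
    (by
      ext k
      by_cases hk : k = i
      · subst hk
        simp [hij.symm]
      · simp [hk])
    (by
      ext k
      by_cases hk : k = i
      · subst hk
        simp [hij.symm]
      · simp [hk])

theorem rhoN_of (i j : α) (hij : i ≠ j) (k : α) :
    rhoN i j hij (of k) = if k = i then of i * of j else of k := by
  simp [rhoN]

/-- the inversion of `x_i` -/
def epsN (i : α) : MulAut (FreeGroup α) :=
  MonoidHom.toMulEquiv
    (FreeGroup.lift (fun k => if k = i then (of i)⁻¹ else of k))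
    (FreeGroup.lift (fun k => if k = i then (of i)⁻¹ else of k))
    (by
      ext k
      by_cases hk : k = i
      · subst hk
        simp
      · simp [hk])
    (by
      ext k
      by_cases hk : k = i
      · subst hk
        simp
      · simp [hk])

theorem epsN_of (i k : α) : epsN i (of k) = if k = i then (of i)⁻¹ else of k := by
  simp [epsN]

/-- the tuples reached from an automorphism -/
def tups (H : Subgroup (MulAut (FreeGroup α))) (φ : MulAut (FreeGroup α)) :
    Set (α → FreeGroup α) := {Y | ∃ h ∈ H, ∀ k, Y k = φ (h (of k))}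

section

variable {H : Subgroup (MulAut (FreeGroup α))} {φ : MulAut (FreeGroup α)}

theorem tups_inv (heps : ∀ i, epsN i ∈ H) {Y : α → FreeGroup α} (hY : Y ∈ tups H φ) (i : α) :
    Function.update Y i (Y i)⁻¹ ∈ tups H φ := by
  obtain ⟨h, hh, hk⟩ := hY
  refine ⟨h * epsN i, H.mul_mem hh (heps i), ?_⟩
  intro k
  rw [MulAut.mul_apply, epsN_of]
  by_cases hki : k = i
  · subst hki
    simp [hk]
  · simp [hki, hk]

theorem tups_mul (hrho : ∀ i j (hij : i ≠ j), rhoN i j hij ∈ H) {Y : α → FreeGroup α}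
    (hY : Y ∈ tups H φ) (i j : α) (hij : i ≠ j) :
    Function.update Y i (Y i * Y j) ∈ tups H φ := by
  obtain ⟨h, hh, hk⟩ := hY
  refine ⟨h * rhoN i j hij, H.mul_mem hh (hrho i j hij), ?_⟩
  intro k
  rw [MulAut.mul_apply, rhoN_of]
  by_cases hki : k = i
  · subst hki
    simp [hk]
  · simp [hki, hk]

theorem tups_sg (heps : ∀ i, epsN i ∈ H) {Y : α → FreeGroup α} (hY : Y ∈ tups H φ)
    (s : α × Bool) : Function.update Y s.1 (sg Y s) ∈ tups H φ := by
  unfold sg
  cases h : s.2 with
  | true => simpa using hY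
  | false => simpa using tups_inv heps hY s.1

theorem tups_move (heps : ∀ i, epsN i ∈ H) (hrho : ∀ i j (hij : i ≠ j), rhoN i j hij ∈ H)
    {Y : α → FreeGroup α} (hY : Y ∈ tups H φ) (s t : α × Bool) (hst : s.1 ≠ t.1) :
    ∃ Y' ∈ tups H φ, Y' s.1 = sg Y s * sg Y t ∧ ∀ k, k ≠ s.1 → Y' k = Y k ∨ Y' k = (Y k)⁻¹ := by
  set Y1 := Function.update Y s.1 (sg Y s) with hY1
  have h1 : Y1 ∈ tups H φ := tups_sg heps hY s
  set Y2 := Function.update Y1 t.1 (sg Y1 t) with hY2
  have h2 : Y2 ∈ tups H φ := tups_sg heps h1 t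
  set Y3 := Function.update Y2 s.1 (Y2 s.1 * Y2 t.1) with hY3
  have h3 : Y3 ∈ tups H φ := tups_mul hrho h2 s.1 t.1 hst
  have e1 : Y1 t.1 = Y t.1 := by simp [hY1, hst.symm]
  have e2 : sg Y1 t = sg Y t := by unfold sg; rw [e1]
  refine ⟨Y3, h3, ?_, ?_⟩
  · simp [hY3, hY2, hY1, hst] at e2 ⊢
    exact e2
  · intro k hk
    by_cases hkt : k = t.1
    · subst hkt
      have : Y3 t.1 = sg Y t := by
        rw [hY3, Function.update_of_ne hk, hY2, Function.update_self, e2]
      rw [this]
      unfold sg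
      cases h : t.2 <;> simp
    · left
      rw [hY3, Function.update_of_ne hk, hY2, Function.update_of_ne hkt, hY1,
        Function.update_of_ne hk]

variable [Fintype α]

theorem sum_move (f : FreeGroup α → ℕ) (hf : ∀ x, f x⁻¹ = f x) {Y Y' : α → FreeGroup α}
    (i : α) (h : ∀ k, k ≠ i → Y' k = Y k ∨ Y' k = (Y k)⁻¹) :
    (∑ k, f (Y' k)) + f (Y i) = (∑ k, f (Y k)) + f (Y' i) := by
  rw [← Finset.add_sum_erase _ _ (Finset.mem_univ i),
    ← Finset.add_sum_erase (a := i) _ (fun k => f (Y k)) (Finset.mem_univ i)]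
  have : ∑ k ∈ Finset.univ.erase i, f (Y' k) = ∑ k ∈ Finset.univ.erase i, f (Y k) := by
    apply Finset.sum_congr rfl
    intro k hk
    rcases h k (Finset.ne_of_mem_erase hk) with h' | h'
    · rw [h']
    · rw [h', hf]
  rw [this]
  ring

theorem exists_min (heps : ∀ i, epsN i ∈ H) (hrho : ∀ i j (hij : i ≠ j), rhoN i j hij ∈ H) :
    ∃ Y ∈ tups H φ, ∀ s t : α × Bool, s.1 ≠ t.1 → (sg Y s).norm ≤ (sg Y s * sg Y t).norm ∧
      ((sg Y s * sg Y t).norm = (sg Y s).norm → cd (sg Y s) ≤ cd (sg Y s * sg Y t)) := by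
  have hne : (tups H φ).Nonempty := ⟨fun k => φ (of k), 1, H.one_mem, fun k => rfl⟩
  set m1 := sInf ((fun Y : α → FreeGroup α => ∑ k, (Y k).norm) '' tups H φ) with hm1
  have hne1 := Nat.sInf_mem (hne.image (fun Y : α → FreeGroup α => ∑ k, (Y k).norm))
  set T1 := {Y ∈ tups H φ | ∑ k, (Y k).norm = m1} with hT1
  have hT1ne : T1.Nonempty := by
    obtain ⟨Y, hY, h⟩ := hne1
    exact ⟨Y, hY, h⟩
  have hne2 := Nat.sInf_mem (hT1ne.image (fun Y : α → FreeGroup α => ∑ k, cd (Y k)))
  obtain ⟨Y, hY, hY2⟩ := hne2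
  have hmin1 : ∀ Y' ∈ tups H φ, ∑ k, (Y k).norm ≤ ∑ k, (Y' k).norm := by
    intro Y' hY'
    rw [hY.2]
    exact Nat.sInf_le ⟨Y', hY', rfl⟩
  have hmin2 : ∀ Y' ∈ tups H φ, ∑ k, (Y' k).norm = ∑ k, (Y k).norm →
      ∑ k, cd (Y k) ≤ ∑ k, cd (Y' k) := by
    intro Y' hY' he
    simp only at hY2
    rw [hY2]
    exact Nat.sInf_le ⟨Y', ⟨hY', he.trans hY.2⟩, rfl⟩
  refine ⟨Y, hY.1, ?_⟩
  intro s t hst
  obtain ⟨Y', hY', e1, e2⟩ := tups_move heps hrho hY.1 s t hst
  have s1 := sum_move (fun x => x.norm) (fun x => norm_inv_eq) s.1 e2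
  have s2 := sum_move cd cd_inv s.1 e2
  simp only [e1] at s1 s2
  have n1 : (sg Y s).norm = (Y s.1).norm := by
    unfold sg; cases s.2 <;> simp
  have n2 : cd (sg Y s) = cd (Y s.1) := by
    unfold sg; cases s.2 <;> simp [cd_inv]
  have l1 := hmin1 Y' hY'
  constructor
  · omega
  · intro h
    have l2 := hmin2 Y' hY' (by omega)
    omega

end

/-- Nielsen's theorem. -/
theorem nielsen {α : Type} [Fintype α] [DecidableEq α] (H : Subgroup (MulAut (FreeGroup α)))
    (hrho : ∀ (g : MulAut (FreeGroup α)) (i j : α), i ≠ j → g (of i) = of i * of j →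
      (∀ k, k ≠ i → g (of k) = of k) → g ∈ H)
    (heps : ∀ (g : MulAut (FreeGroup α)) (i : α), g (of i) = (of i)⁻¹ →
      (∀ k, k ≠ i → g (of k) = of k) → g ∈ H)
    (hperm : ∀ (g : MulAut (FreeGroup α)) (σ : Equiv.Perm α),
      (∀ k, g (of k) = of (σ k)) → g ∈ H) : H = ⊤ := by
  rw [eq_top_iff]
  intro φ _
  have heps' : ∀ i, epsN i ∈ H := by
    intro i
    exact heps _ i (by rw [epsN_of, if_pos rfl]) (fun k hk => by rw [epsN_of, if_neg hk])
  have hrho' : ∀ i j (hij : i ≠ j), rhoN i j hij ∈ H := by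
    intro i j hij
    exact hrho _ i j hij (by rw [rhoN_of, if_pos rfl]) (fun k hk => by rw [rhoN_of, if_neg hk])
  obtain ⟨Y, ⟨h, hh, hY⟩, hmin⟩ := exists_min (φ := φ) heps' hrho'
  have h0 : ∀ k, Y k ≠ 1 := by
    intro k hk
    rw [hY] at hk
    simp at hk
  have hm := fun s t hst => (hmin s t hst).1
  have hc := fun s t hst => (hmin s t hst).2
  have n2 := N2 h0 hm hc
  have n1 := fun s t hst => (N1 h0 hm s t hst).2
  have hlong := long' h0 n1 n2
  -- the automorphism
  have hψ : ∀ x, (φ * h) x = FreeGroup.lift Y x := by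
    intro x
    have : (φ * h).toMonoidHom = FreeGroup.lift Y := by
      ext k
      simp [hY]
    exact DFunLike.congr_fun this x
  have hone : ∀ j : α, ∃ i : α, Y i = of j ∨ Y i = (of j)⁻¹ := by
    intro j
    obtain ⟨w, hw⟩ := (φ * h).surjective (of j)
    have h1 := hlong w
    rw [← hψ, hw, norm_of] at h1
    have h2 : w.norm ≠ 0 := by
      intro h3
      rw [FreeGroup.norm_eq_zero] at h3
      rw [h3, _root_.map_one] at hw
      exact of_ne_one j hw.symm
    have h3 : w.toWord.length = 1 := by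
      have : w.norm = w.toWord.length := rfl
      omega
    obtain ⟨s, hs⟩ := List.length_eq_one_iff.1 h3
    have h4 : w = mk [s] := by rw [← hs, mk_toWord]
    refine ⟨s.1, ?_⟩
    rw [hψ, h4, FreeGroup.lift_mk] at hw
    cases hb : s.2 with
    | true =>
      left
      simpa [hb] using hw
    | false =>
      right
      have : (Y s.1)⁻¹ = of j := by simpa [hb] using hw
      rw [← this, inv_inv]
  choose τ hτ using hone
  have hinj : Function.Injective τ := by
    intro j j' hjj
    have h1 := hτ j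
    have h2 := hτ j'
    rw [← hjj] at h2
    have hne : ∀ a b : α, (of a : FreeGroup α) ≠ (of b)⁻¹ := by
      intro a b hab
      have := congrArg FreeGroup.toWord hab
      simp [toWord_inv, invRev] at this
    rcases h1 with h1 | h1 <;> rcases h2 with h2 | h2
    · exact FreeGroup.of_injective (h1.symm.trans h2)
    · exact absurd (h1.symm.trans h2) (hne _ _)
    · exact absurd (h2.symm.trans h1) (hne _ _)
    · exact FreeGroup.of_injective (inv_injective (h1.symm.trans h2))
  have hbij : Function.Bijective τ := Finite.injective_iff_bijective.1 hinj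
  set τe : Equiv.Perm α := Equiv.ofBijective τ hbij with hτe
  set σ : Equiv.Perm α := τe.symm with hσ
  have hσY : ∀ k, Y k = of (σ k) ∨ Y k = (of (σ k))⁻¹ := by
    intro k
    have h1 := hτ (σ k)
    have h2 : τ (σ k) = k := τe.apply_symm_apply k
    rw [h2] at h1
    exact h1
  -- signs
  have hsign : ∀ S : Finset α, ∃ δ ∈ H, ∀ k, δ (of k) = if k ∈ S then (of k)⁻¹ else of k := by
    intro S
    induction S using Finset.induction_on with
    | empty => exact ⟨1, H.one_mem, fun k => by simp⟩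
    | insert a S ha ih =>
      obtain ⟨δ, hδ, hk⟩ := ih
      refine ⟨epsN a * δ, H.mul_mem (heps' a) hδ, ?_⟩
      intro k
      rw [MulAut.mul_apply, hk]
      by_cases hka : k = a
      · subst hka
        simp [ha, epsN_of]
      · by_cases hkS : k ∈ S
        · simp [hkS, epsN_of, hka]
        · simp [hkS, epsN_of, hka]
  classical
  obtain ⟨δ, hδ, hk⟩ := hsign (Finset.univ.filter (fun k => Y k = (of (σ k))⁻¹))
  have hfin : φ * h * δ ∈ H := by
    apply hperm _ σ
    intro k
    rw [MulAut.mul_apply, hk]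
    by_cases hkS : Y k = (of (σ k))⁻¹
    · simp only [Finset.mem_filter, Finset.mem_univ, true_and, hkS, if_true]
      rw [_root_.map_inv, MulAut.mul_apply, ← hY, hkS, inv_inv]
    · simp only [Finset.mem_filter, Finset.mem_univ, true_and, hkS, if_false]
      rw [MulAut.mul_apply, ← hY]
      exact (hσY k).resolve_right hkS
  have h1 : φ * h ∈ H := (H.mul_mem_cancel_right hδ).1 hfin
  exact (H.mul_mem_cancel_right hh).1 h1

end Pool.Agent.Work.OutFn
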