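import Pool.Agent.Work.MP_ac5e87_al.Theta

/-!
# The odd primes

Let `φ` be a homomorphism from `Aut(F_n)`, `n ≥ 3`, with `φ(g) ^ p = 1` for all `g`.  If `r` is an
odd prime, `r ^ b * (r - 1) ≤ n` and `r ^ (b + 1)` does not divide `p` then `φ` kills all
transvections.
-/

namespace Pool.Agent.Work.OutFn

open FreeGroup hiding map_mul map_inv map_one

variable {α : Type} [DecidableEq α] {Q : Type*} [Group Q]

/-- The cyclic shift of `r` points, one of which is the base point. -/
noncomputable def cyc (r : ℕ) : Equiv.Perm (Option {x : ZMod r // x ≠ 0}) :=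
  (Equiv.optionSubtypeNe (0 : ZMod r)).symm.permCongr (Equiv.addRight 1)

theorem cyc_pow (r : ℕ) : cyc r ^ r = 1 := by
  have h1 : ∀ (k : ℕ) (x : Option {x : ZMod r // x ≠ 0}), (cyc r ^ k) x =
      (Equiv.optionSubtypeNe (0 : ZMod r)).symm
        (((Equiv.addRight 1) ^ k) (Equiv.optionSubtypeNe (0 : ZMod r) x)) := by
    intro k x
    induction k with
    | zero => exact ((Equiv.optionSubtypeNe (0 : ZMod r)).symm_apply_apply x).symm
    | succ k ih =>
      rw [pow_succ', Equiv.Perm.mul_apply, ih, cyc, Equiv.permCongr_apply, Equiv.symm_symm,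
        Equiv.apply_symm_apply, pow_succ', Equiv.Perm.mul_apply]
  ext1 x
  rw [h1, addRight_pow_card, Equiv.Perm.one_apply, Equiv.symm_apply_apply, Equiv.Perm.one_apply]

theorem cyc_some {r : ℕ} (x : ZMod r) (hx : x ≠ 0) (hx' : x + 1 ≠ 0) :
    cyc r (some ⟨x, hx⟩) = some ⟨x + 1, hx'⟩ := by
  simp [cyc, Equiv.permCongr_apply, Equiv.optionSubtypeNe_symm_of_ne hx']

theorem cyc_some_none {r : ℕ} (x : ZMod r) (hx : x ≠ 0) (hx' : x + 1 = 0) :
    cyc r (some ⟨x, hx⟩) = none := by
  simp [cyc, Equiv.permCongr_apply, hx']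

/-- The image of the symmetric group of a block commutes with the image of the cycle. -/
theorem theta_commute_cyc {r b p : ℕ} (hr : r.Prime)
    (ι : ZMod (r ^ b) × {x : ZMod r // x ≠ 0} ↪ α) (hp : ¬ r ^ (b + 1) ∣ p)
    {φ : MulAut (FreeGroup α) →* Q} (hφ : ∀ g, φ g ^ p = 1)
    (hy : Function.Injective fun j => ι (0, j))
    (τ : Equiv.Perm (Option {x : ZMod r // x ≠ 0})) :
    Commute (φ (theta hy τ)) (φ (theta hy (cyc r))) := by
  set P : Equiv.Perm α := Equiv.Perm.viaEmbeddingHom ι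
    ((Equiv.addRight (1 : ZMod (r ^ b))).prodCongr (Equiv.refl _)) with hPdef
  have hpc : ∀ (s : ℕ) (x : ZMod (r ^ b) × {x : ZMod r // x ≠ 0}),
      (((Equiv.addRight (1 : ZMod (r ^ b))).prodCongr
        (Equiv.refl {x : ZMod r // x ≠ 0}) : Equiv.Perm _) ^ s) x = (x.1 + s, x.2) := by
    intro s x
    induction s with
    | zero => simp
    | succ s ih =>
      rw [pow_succ', Equiv.Perm.mul_apply, ih]
      simp [add_assoc]
  have hPs : ∀ (s : ℕ) (t : ZMod (r ^ b)) (j : {x : ZMod r // x ≠ 0}),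
      (P ^ s) (ι (t, j)) = ι (t + s, j) := by
    intro s t j
    rw [hPdef, ← map_pow, Equiv.Perm.viaEmbeddingHom_apply, Equiv.Perm.viaEmbedding_apply, hpc]
  have hPm : P ^ (r ^ b) = 1 := by
    rw [hPdef, ← map_pow]
    have h1 : (((Equiv.addRight (1 : ZMod (r ^ b))).prodCongr
        (Equiv.refl {x : ZMod r // x ≠ 0}) : Equiv.Perm _) ^ (r ^ b)) = 1 := by
      ext1 x
      rw [hpc]
      simp
    rw [h1, map_one]
  have hys : ∀ s : ZMod (r ^ b), Function.Injective fun j => ι (s, j) := by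
    intro s i j hij
    simpa using hij
  have hcs : ∀ s : ℕ, φ (permN P) ^ s * φ (theta hy (cyc r)) * (φ (permN P) ^ s)⁻¹ =
      φ (theta (hys s) (cyc r)) := by
    intro s
    rw [phi_perm_pow, ← map_mul, permN_theta (P ^ s) hy (hys s) (fun j => by
      rw [hPs, zero_add]), map_mul, mul_inv_cancel_right]
  have hdis : ∀ {s t : ZMod (r ^ b)}, s ≠ t → ∀ i j : {x : ZMod r // x ≠ 0},
      ι (t, i) ≠ ι (s, j) := by
    intro s t hst i j h
    have h1 := ι.injective h
    rw [Prod.mk.injEq] at h1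
    exact hst h1.1.symm
  apply wlemma hr hp (P := φ (permN P))
  · rw [phi_perm_pow, hPm, map_one, map_one]
  · rw [← map_pow, ← map_pow, cyc_pow, map_one, map_one]
  · intro s _ t _
    rw [hcs, hcs]
    by_cases hst : (s : ZMod (r ^ b)) = t
    · rw [show theta (hys s) (cyc r) = theta (hys t) (cyc r) by simp only [hst]]
    · rw [commute_iff_eq, ← map_mul, ← map_mul, theta_commute (hys s) (hys t) (hdis hst)]
  · intro s hs hs'
    have h0 : (0 : ZMod (r ^ b)) ≠ s := by
      intro h
      have h1 := h.symm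
      rw [ZMod.natCast_eq_zero_iff] at h1
      exact absurd (Nat.le_of_dvd hs h1) (by omega)
    rw [hcs, commute_iff_eq, ← map_mul, ← map_mul, theta_commute hy (hys s) (hdis h0)]
  · rw [← map_mul]
    exact hφ _

/-- The commutator of the cycle with a transposition. -/
theorem theta_swap_eq {r b p : ℕ} (hr : r.Prime)
    (ι : ZMod (r ^ b) × {x : ZMod r // x ≠ 0} ↪ α) (hp : ¬ r ^ (b + 1) ∣ p)
    {φ : MulAut (FreeGroup α) →* Q} (hφ : ∀ g, φ g ^ p = 1)
    (hy : Function.Injective fun j => ι (0, j)) (a c : Option {x : ZMod r // x ≠ 0}) :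
    φ (theta hy (Equiv.swap a c)) = φ (theta hy (Equiv.swap (cyc r a) (cyc r c))) := by
  have h1 := theta_commute_cyc hr ι hp hφ hy (Equiv.swap a c)
  rw [Equiv.swap_apply_apply, map_mul, map_mul, map_inv, map_mul, map_mul, map_inv, ← h1.eq,
    mul_inv_cancel_right]

/-- Primes at least five. -/
theorem odd_five {r b p : ℕ} (hr : r.Prime) (hr5 : 5 ≤ r)
    (ι : ZMod (r ^ b) × {x : ZMod r // x ≠ 0} ↪ α) (hp : ¬ r ^ (b + 1) ∣ p)
    {φ : MulAut (FreeGroup α) →* Q} (hφ : ∀ g, φ g ^ p = 1) :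
    ∃ (i j : α) (hij : i ≠ j), φ (rhoN i j hij) = 1 := by
  have hy : Function.Injective fun j => ι (0, j) := by
    intro i j hij
    simpa using hij
  have hne : ∀ k : ℕ, 0 < k → k < r → ((k : ℕ) : ZMod r) ≠ 0 := by
    intro k hk hk' h
    rw [ZMod.natCast_eq_zero_iff] at h
    exact absurd (Nat.le_of_dvd hk h) (by omega)
  have h1 : (1 : ZMod r) ≠ 0 := by simpa using hne 1 (by omega) (by omega)
  have h2 : (1 : ZMod r) + 1 ≠ 0 := by
    have := hne 2 (by omega) (by omega)
    rwa [show ((2 : ℕ) : ZMod r) = 1 + 1 by push_cast; norm_num] at this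
  have h3 : (1 : ZMod r) + 1 + 1 ≠ 0 := by
    have := hne 3 (by omega) (by omega)
    rwa [show ((3 : ℕ) : ZMod r) = 1 + 1 + 1 by push_cast; norm_num] at this
  have h4 := theta_swap_eq hr ι hp hφ hy (some ⟨1, h1⟩) (some ⟨1 + 1, h2⟩)
  rw [cyc_some _ _ h2, cyc_some _ _ h3, theta_swap, theta_swap] at h4
  set A := ι (0, ⟨1, h1⟩) with hA
  set B := ι (0, ⟨1 + 1, h2⟩) with hB
  set C := ι (0, ⟨1 + 1 + 1, h3⟩) with hC
  have hAB : A ≠ B := by
    intro h
    have := ι.injective h
    simp at this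
    exact h1 this
  have hBC : B ≠ C := by
    intro h
    have := ι.injective h
    simp at this
    exact h1 this
  have hAC : A ≠ C := by
    intro h
    have h5 := ι.injective h
    have h6 : (1 : ZMod r) = 1 + 1 + 1 := by simpa using h5
    apply h2
    linear_combination -h6
  have h5 := phi_perm_rho φ (Equiv.swap A B) hAB
  have h6 := phi_perm_rho φ (Equiv.swap B C) hAB
  rw [h4] at h5
  have h7 := h5.symm.trans h6
  have h8 : φ (rhoN B A hAB.symm) = φ (rhoN A C hAC) := by
    have e1 : rhoN (Equiv.swap A B A) (Equiv.swap A B B)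
        ((Equiv.swap A B).injective.ne hAB) = rhoN B A hAB.symm := by
      congr 1
      · exact Equiv.swap_apply_left A B
      · exact Equiv.swap_apply_right A B
    have e2 : rhoN (Equiv.swap B C A) (Equiv.swap B C B)
        ((Equiv.swap B C).injective.ne hAB) = rhoN A C hAC := by
      congr 1
      · exact Equiv.swap_apply_of_ne_of_ne hAB hAC
      · exact Equiv.swap_apply_left B C
    rw [← e1, ← e2]
    exact h7
  refine ⟨B, C, hBC, ?_⟩
  apply rho_of_commute (hij := hAB.symm) (hjk := hAC) hBC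
  rw [h8]

/-- The prime three. -/
theorem odd_three [Fintype α] {b p : ℕ} (h3 : 3 ≤ Fintype.card α)
    (ι : ZMod (3 ^ b) × {x : ZMod 3 // x ≠ 0} ↪ α) (hp : ¬ 3 ^ (b + 1) ∣ p)
    {φ : MulAut (FreeGroup α) →* Q} (hφ : ∀ g, φ g ^ p = 1) :
    ∃ (i j : α) (hij : i ≠ j), φ (rhoN i j hij) = 1 := by
  have hy : Function.Injective fun j => ι (0, j) := by
    intro i j hij
    simpa using hij
  have h1 : (1 : ZMod 3) ≠ 0 := by decide
  have h2 : (1 : ZMod 3) + 1 ≠ 0 := by decide
  have h30 : (1 : ZMod 3) + 1 + 1 = 0 := by decide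
  have h4 := theta_swap_eq Nat.prime_three ι hp hφ hy (some ⟨1, h1⟩) (some ⟨1 + 1, h2⟩)
  rw [cyc_some _ _ h2, cyc_some_none _ _ h30, theta_swap] at h4
  set A := ι (0, ⟨1, h1⟩) with hA
  set B := ι (0, ⟨1 + 1, h2⟩) with hB
  have hAB : A ≠ B := by
    intro h
    have := ι.injective h
    simp at this
  have hBval : ∀ j : {x : ZMod 3 // x ≠ 0}, j = ⟨1, h1⟩ ∨ j = ⟨1 + 1, h2⟩ := by
    rintro ⟨x, hx⟩
    simp only [Subtype.mk.injEq]
    revert x
    decide
  -- the image of the transposition of `none` and `B`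
  have h5 : theta hy (Equiv.swap (some ⟨1 + 1, h2⟩) none) = epsN B * rhoN A B hAB := by
    apply aut_ext
    intro k
    rw [MulAut.mul_apply]
    by_cases hk : ∃ j, ι (0, j) = k
    · obtain ⟨j, rfl⟩ := hk
      have h6 := theta_some hy (Equiv.swap (some ⟨1 + 1, h2⟩) none) j
      rw [Equiv.swap_apply_right] at h6
      rcases hBval j with hj | hj
      · subst hj
        rw [Equiv.swap_apply_of_ne_of_ne (by simp) (by simp)] at h6
        rw [h6, ← hA, rhoN_self, map_mul, epsN_ne hAB, epsN_self]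
        rfl
      · subst hj
        rw [Equiv.swap_apply_left] at h6
        rw [h6, ← hB, rhoN_ne hAB hAB.symm, epsN_self]
        simp [yy, hB]
    · push Not at hk
      have hkA : k ≠ A := (hk _).symm
      have hkB : k ≠ B := (hk _).symm
      rw [theta_of hy _ hk, rhoN_ne hAB hkA, epsN_ne hkB]
  rw [h5] at h4
  obtain ⟨C, hC⟩ : ∃ k, k ∉ ({A, B} : Finset α) := by
    by_contra hcon
    push Not at hcon
    have h7 : Finset.univ ⊆ ({A, B} : Finset α) := fun k _ => hcon k
    have h8 := Finset.card_le_card h7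
    have h9 : ({A, B} : Finset α).card ≤ 2 := Finset.card_le_two
    rw [Finset.card_univ] at h8
    omega
  simp only [Finset.mem_insert, Finset.mem_singleton, not_or] at hC
  obtain ⟨hCA, hCB⟩ := hC
  -- conjugation of `ρ_CB`
  have e1 : φ (permN (Equiv.swap A B)) * φ (rhoN C B hCB) =
      φ (rhoN C A hCA) * φ (permN (Equiv.swap A B)) := by
    rw [← map_mul, permN_mul_rhoN, map_mul]
    congr 2
    congr 1
    · exact Equiv.swap_apply_of_ne_of_ne hCA hCB
    · exact Equiv.swap_apply_right A B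
  have e2 : φ (permN (Equiv.swap A B)) * φ (rhoN C A hCA) =
      φ (rhoN C B hCB) * φ (permN (Equiv.swap A B)) := by
    rw [← map_mul, permN_mul_rhoN, map_mul]
    congr 2
    congr 1
    · exact Equiv.swap_apply_of_ne_of_ne hCA hCB
    · exact Equiv.swap_apply_left A B
  rw [h4, map_mul] at e1 e2
  set x := φ (rhoN C A hCA) with hx
  set y := φ (rhoN C B hCB) with hyd
  set z := φ (rhoN A B hAB) with hz
  set e := φ (epsN B) with he
  have hee : e * e = 1 := eps_sq φ B
  have r1 : y * e * y = e := by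
    have := congrArg φ (rhoN_epsN_snd hCB)
    simpa only [map_mul] using this
  have r2 : z * y = y * z := by
    have := congrArg φ (rhoN_commute hAB hCB (Ne.symm hCA) (Ne.symm hCB) hAB)
    simpa only [map_mul] using this
  have r3 : z * x = x * z * y := by
    have := congrArg φ (rhoN_comm hCA hAB hCB)
    simpa only [map_mul] using this
  have r4 : x * e = e * x := by
    have := congrArg φ (rhoN_epsN hCA (Ne.symm hCB) hAB.symm)
    simpa only [map_mul] using this
  -- `e1 : e z y = x e z`, so `x = y⁻¹`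
  have s1 : x * y = 1 := by
    have t1 : e * y = x * e := by
      have : e * y * z = x * e * z := by rw [mul_assoc, ← r2, ← mul_assoc, e1, mul_assoc]
      exact mul_right_cancel this
    have t2 : y * (x * e) = e := by rw [← t1, ← mul_assoc, r1]
    have t3 : y * x = 1 := by
      rw [← mul_assoc] at t2
      exact mul_eq_right.1 t2
    exact (mul_eq_one_iff_eq_inv.1 t3).symm ▸ by simp
  have s2 : e * y * e = y⁻¹ := by
    have t1 : y * (e * y * e) = 1 := by
      rw [← mul_assoc, ← mul_assoc, r1, hee]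
    exact (eq_inv_of_mul_eq_one_right t1)
  have s3 : x = y⁻¹ := eq_inv_of_mul_eq_one_left s1
  have s4 : e * x * e = x := by rw [← r4, mul_assoc, hee, mul_one]
  have s5 : y = y⁻¹ := by
    have t0 : e⁻¹ = e := inv_eq_of_mul_eq_one_left hee
    have t1 := congrArg (fun u => u⁻¹) s2
    simp only [mul_inv_rev, inv_inv, t0] at t1
    rw [s3] at s4
    rw [← mul_assoc] at t1
    rw [s4] at t1
    exact t1.symm
  have s6 : x = y := by rw [s3]; exact s5.symm
  -- `e2 : e z x = y e z`
  have s7 : x = 1 := by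
    have t1 : e * (x * z * y) = y * (e * z) := by
      rw [← r3, ← mul_assoc]
      rw [← mul_assoc] at e2
      rw [e2, mul_assoc]
    have t2 : e * x * y * z = y * e * z := by
      have : e * (x * z * y) = e * x * y * z := by
        rw [mul_assoc x z y, r2]
        group
      rw [← this, t1, mul_assoc]
    have t3 : e * x * y = y * e := mul_right_cancel t2
    rw [mul_assoc, s1, mul_one] at t3
    have t4 : y = 1 := (mul_eq_right.1 t3.symm)
    rw [s6, t4]
  exact ⟨C, A, hCA, s7⟩

theorem odd_case [Fintype α] {r b p : ℕ} (hr : r.Prime) (hr2 : r ≠ 2)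
    (hb : r ^ b * (r - 1) ≤ Fintype.card α) (h3 : 3 ≤ Fintype.card α)
    (hp : ¬ r ^ (b + 1) ∣ p) {φ : MulAut (FreeGroup α) →* Q} (hφ : ∀ g, φ g ^ p = 1) {i j : α}
    (hij : i ≠ j) : φ (rhoN i j hij) = 1 := by
  have : NeZero (r ^ b) := ⟨(pow_pos hr.pos b).ne'⟩
  have : NeZero r := ⟨hr.ne_zero⟩
  have hcard : Fintype.card (ZMod (r ^ b) × {x : ZMod r // x ≠ 0}) = r ^ b * (r - 1) := by
    rw [Fintype.card_prod, ZMod.card, Fintype.card_subtype_compl, Fintype.card_subtype_eq,
      ZMod.card]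
  obtain ⟨ι⟩ : Nonempty (ZMod (r ^ b) × {x : ZMod r // x ≠ 0} ↪ α) :=
    Function.Embedding.nonempty_of_card_le (by rw [hcard]; exact hb)
  have h5 : r = 3 ∨ 5 ≤ r := by
    have h6 := hr.two_le
    by_contra hcon
    push Not at hcon
    have h7 : r = 4 := by omega
    subst h7
    exact absurd hr (by norm_num)
  rcases h5 with h5 | h5
  · subst h5
    obtain ⟨k, l, hkl, h⟩ := odd_three h3 ι hp hφ
    exact all_rho h hij
  · obtain ⟨k, l, hkl, h⟩ := odd_five hr h5 ι hp hφ
    exact all_rho h hij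

end Pool.Agent.Work.OutFn
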