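import Mathlib

/-!
# A wreath product lemma

In a group, let `P ^ m = 1`, `c ^ r = 1` with `m = r ^ b`, and let the conjugates
`P ^ s * c * P ^ (-s)` commute pairwise.  Then `c * P` has order dividing `r ^ (b + 1)`; if its
`p`-th power is trivial and `r ^ (b + 1)` does not divide `p`, then `(c * P) ^ m = 1`.
-/

namespace Pool.Agent.Work.OutFn

variable {Q : Type*} [Group Q]

/-- The product of the conjugates of `c` by `1, P, …, P ^ (k - 1)`. -/
def cprod (P c : Q) : ℕ → Q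
  | 0 => 1
  | k + 1 => cprod P c k * (P ^ k * c * (P ^ k)⁻¹)

theorem mul_pow_eq_cprod (P c : Q) (k : ℕ) : (c * P) ^ k = cprod P c k * P ^ k := by
  induction k with
  | zero => simp [cprod]
  | succ k ih =>
    rw [pow_succ, ih, cprod, pow_succ P k]
    group

theorem commute_cprod {P c x : Q} (k : ℕ) (h : ∀ s < k, Commute x (P ^ s * c * (P ^ s)⁻¹)) :
    Commute x (cprod P c k) := by
  induction k with
  | zero => exact Commute.one_right x
  | succ k ih =>
    exact (ih fun s hs => h s (by omega)).mul_right (h k (by omega))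

theorem cprod_pow {P c : Q} {r : ℕ} (hc : c ^ r = 1) (k : ℕ)
    (h : ∀ s < k, ∀ t < k, Commute (P ^ s * c * (P ^ s)⁻¹) (P ^ t * c * (P ^ t)⁻¹)) :
    cprod P c k ^ r = 1 := by
  induction k with
  | zero => simp [cprod]
  | succ k ih =>
    have h1 : Commute (cprod P c k) (P ^ k * c * (P ^ k)⁻¹) :=
      (commute_cprod k fun s hs => h k (by omega) s (by omega)).symm
    rw [cprod, h1.mul_pow, ih fun s hs t ht => h s (by omega) t (by omega), one_mul,
      conj_pow, hc]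
    simp

/-- The first factor. -/
theorem exists_cprod_eq {P c x : Q} (k : ℕ)
    (h : ∀ s, 0 < s → s < k → Commute x (P ^ s * c * (P ^ s)⁻¹)) (hk : 0 < k) :
    ∃ y, cprod P c k = c * y ∧ Commute x y := by
  obtain ⟨k, rfl⟩ : ∃ l, k = l + 1 := ⟨k - 1, by omega⟩
  clear hk
  induction k with
  | zero => exact ⟨1, by simp [cprod], Commute.one_right x⟩
  | succ k ih =>
    obtain ⟨y, h1, h2⟩ := ih fun s hs hs' => h s hs (by omega)
    refine ⟨y * (P ^ (k + 1) * c * (P ^ (k + 1))⁻¹), ?_, h2.mul_right (h _ (by omega) (by omega))⟩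
    rw [cprod, h1, mul_assoc]

/-- The wreath product lemma. -/
theorem wlemma {r b p : ℕ} (hr : r.Prime) (hp : ¬ r ^ (b + 1) ∣ p) {P c x : Q}
    (hP : P ^ (r ^ b) = 1) (hc : c ^ r = 1)
    (hcc : ∀ s < r ^ b, ∀ t < r ^ b, Commute (P ^ s * c * (P ^ s)⁻¹) (P ^ t * c * (P ^ t)⁻¹))
    (hx : ∀ s, 0 < s → s < r ^ b → Commute x (P ^ s * c * (P ^ s)⁻¹)) (h1 : (c * P) ^ p = 1) :
    Commute x c := by
  have hm : (c * P) ^ (r ^ b) = 1 := by
    have h2 : (c * P) ^ (r ^ (b + 1)) = 1 := by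
      rw [pow_succ, pow_mul, mul_pow_eq_cprod, hP, mul_one, cprod_pow hc _ hcc]
    have h3 : orderOf (c * P) ∣ r ^ (b + 1) := orderOf_dvd_of_pow_eq_one h2
    have h4 : orderOf (c * P) ∣ p := orderOf_dvd_of_pow_eq_one h1
    obtain ⟨a, ha, ha'⟩ := (Nat.dvd_prime_pow hr).1 h3
    have h5 : a ≠ b + 1 := by
      rintro rfl
      exact hp (ha' ▸ h4)
    exact orderOf_dvd_iff_pow_eq_one.1 (ha' ▸ pow_dvd_pow r (by omega))
  rw [mul_pow_eq_cprod, hP, mul_one] at hm
  obtain ⟨y, h2, h3⟩ := exists_cprod_eq (r ^ b) hx (pow_pos hr.pos b)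
  have h4 : c = y⁻¹ := by
    rw [h2] at hm
    exact eq_inv_of_mul_eq_one_left hm
  rw [h4]
  exact h3.inv_right

end Pool.Agent.Work.OutFn
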