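import Pool.Agent.Work.MP_ac5e87_al.Nielsen
import Pool.Agent.Work.MP_ac5e87_al.WLemma

/-!
# Relations between transvections, inversions and permutations

`rhoN i j : x_i ↦ x_i x_j`, `epsN i : x_i ↦ x_i⁻¹`, `permN σ : x_k ↦ x_(σ k)`.
-/

namespace Pool.Agent.Work.OutFn

open FreeGroup hiding map_mul map_inv map_one

variable {α β : Type} [DecidableEq α] [DecidableEq β]

omit [DecidableEq α] in
theorem aut_ext {f g : MulAut (FreeGroup α)} (h : ∀ k, f (of k) = g (of k)) : f = g := by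
  apply MulEquiv.ext
  have h1 : (f : FreeGroup α →* FreeGroup α) = (g : FreeGroup α →* FreeGroup α) :=
    FreeGroup.ext_hom _ _ h
  intro x
  exact DFunLike.congr_fun h1 x

/-- The automorphism permuting the generators. -/
def permN : Equiv.Perm α →* MulAut (FreeGroup α) where
  toFun σ := freeGroupCongr σ
  map_one' := by
    apply aut_ext
    intro k
    simp
  map_mul' σ τ := by
    apply aut_ext
    intro k
    simp

theorem permN_of (σ : Equiv.Perm α) (k : α) : permN σ (of k) = of (σ k) := by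
  simp [permN]

theorem rhoN_self {i j : α} (h : i ≠ j) : rhoN i j h (of i) = of i * of j := by
  rw [rhoN_of, if_pos rfl]

theorem rhoN_ne {i j k : α} (h : i ≠ j) (hk : k ≠ i) : rhoN i j h (of k) = of k := by
  rw [rhoN_of, if_neg hk]

theorem epsN_self (i : α) : epsN i (of i) = (of i)⁻¹ := by
  rw [epsN_of, if_pos rfl]

theorem epsN_ne {i k : α} (hk : k ≠ i) : epsN i (of k) = of k := by
  rw [epsN_of, if_neg hk]

theorem permN_mul_rhoN (σ : Equiv.Perm α) {i j : α} (h : i ≠ j) :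
    permN σ * rhoN i j h = rhoN (σ i) (σ j) (σ.injective.ne h) * permN σ := by
  apply aut_ext
  intro k
  rw [MulAut.mul_apply, MulAut.mul_apply, permN_of]
  by_cases hk : k = i
  · subst hk
    rw [rhoN_self, rhoN_self, map_mul, permN_of, permN_of]
  · rw [rhoN_ne h hk, rhoN_ne _ (σ.injective.ne hk), permN_of]

theorem permN_mul_epsN (σ : Equiv.Perm α) (i : α) :
    permN σ * epsN i = epsN (σ i) * permN σ := by
  apply aut_ext
  intro k
  rw [MulAut.mul_apply, MulAut.mul_apply, permN_of]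
  by_cases hk : k = i
  · subst hk
    rw [epsN_self, epsN_self, map_inv, permN_of]
  · rw [epsN_ne hk, epsN_ne (σ.injective.ne hk), permN_of]

theorem epsN_mul_self (i : α) : epsN i * epsN i = 1 := by
  apply aut_ext
  intro k
  rw [MulAut.mul_apply, MulAut.one_apply]
  by_cases hk : k = i
  · subst hk
    rw [epsN_self, map_inv, epsN_self, inv_inv]
  · rw [epsN_ne hk, epsN_ne hk]

theorem epsN_comm (i j : α) : epsN i * epsN j = epsN j * epsN i := by
  by_cases hij : i = j
  · rw [hij]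
  apply aut_ext
  intro k
  rw [MulAut.mul_apply, MulAut.mul_apply]
  by_cases hk : k = i
  · subst hk
    rw [epsN_ne hij, epsN_self, map_inv, epsN_ne hij]
  by_cases hk' : k = j
  · subst hk'
    rw [epsN_ne hk, epsN_self, map_inv, epsN_ne hk]
  · rw [epsN_ne hk, epsN_ne hk', epsN_ne hk]

/-- `[ρ_ij, ρ_jk] = ρ_ik` -/
theorem rhoN_comm {i j k : α} (hij : i ≠ j) (hjk : j ≠ k) (hik : i ≠ k) :
    rhoN j k hjk * rhoN i j hij = rhoN i j hij * rhoN j k hjk * rhoN i k hik := by
  apply aut_ext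
  intro l
  rw [MulAut.mul_apply, MulAut.mul_apply, MulAut.mul_apply]
  by_cases hl : l = i
  · subst hl
    rw [rhoN_self, rhoN_self, map_mul, map_mul, rhoN_ne hjk hij, rhoN_self, rhoN_ne hjk hjk.symm,
      map_mul, rhoN_self, rhoN_ne hij hik.symm, mul_assoc]
  by_cases hl' : l = j
  · subst hl'
    rw [rhoN_ne hij hl, rhoN_self, rhoN_ne hik hl, rhoN_self, map_mul, rhoN_ne hij hl,
      rhoN_ne hij hik.symm]
  · rw [rhoN_ne hij hl, rhoN_ne hjk hl', rhoN_ne hik hl, rhoN_ne hjk hl', rhoN_ne hij hl]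

/-- `ρ_ij` and `ρ_kl` commute if `i ≠ k`, `j ≠ k`, `l ≠ i`. -/
theorem rhoN_commute {i j k l : α} (hij : i ≠ j) (hkl : k ≠ l) (hik : i ≠ k) (hjk : j ≠ k)
    (hil : i ≠ l) : rhoN i j hij * rhoN k l hkl = rhoN k l hkl * rhoN i j hij := by
  apply aut_ext
  intro m
  rw [MulAut.mul_apply, MulAut.mul_apply]
  by_cases hm : m = i
  · subst hm
    rw [rhoN_ne hkl hik, rhoN_self, map_mul, rhoN_ne hkl hik, rhoN_ne hkl hjk]
  by_cases hm' : m = k
  · subst hm'
    rw [rhoN_ne hij hm, rhoN_self, map_mul, rhoN_ne hij hm, rhoN_ne hij hil.symm]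
  · rw [rhoN_ne hij hm, rhoN_ne hkl hm', rhoN_ne hij hm]

/-- `ρ_ij ε_j = ε_j ρ_ij⁻¹` -/
theorem rhoN_epsN_snd {i j : α} (hij : i ≠ j) :
    rhoN i j hij * epsN j * rhoN i j hij = epsN j := by
  apply aut_ext
  intro m
  rw [MulAut.mul_apply, MulAut.mul_apply]
  by_cases hm : m = i
  · subst hm
    rw [rhoN_self, map_mul, epsN_ne hij, epsN_self, map_mul, map_inv, rhoN_self,
      rhoN_ne hij hij.symm, mul_inv_cancel_right]
  by_cases hm' : m = j
  · subst hm'
    rw [rhoN_ne hij hm, epsN_self, map_inv, rhoN_ne hij hm]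
  · rw [rhoN_ne hij hm, epsN_ne hm', rhoN_ne hij hm]

theorem rhoN_epsN {i j k : α} (hij : i ≠ j) (hki : k ≠ i) (hkj : k ≠ j) :
    rhoN i j hij * epsN k = epsN k * rhoN i j hij := by
  apply aut_ext
  intro m
  rw [MulAut.mul_apply, MulAut.mul_apply]
  by_cases hm : m = i
  · subst hm
    rw [rhoN_self, epsN_ne hki.symm, rhoN_self, map_mul, epsN_ne hki.symm, epsN_ne hkj.symm]
  by_cases hm' : m = k
  · subst hm'
    rw [rhoN_ne hij hm, epsN_self, map_inv, rhoN_ne hij hm]
  · rw [rhoN_ne hij hm, epsN_ne hm', rhoN_ne hij hm]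

/-- `λ_ij : x_i ↦ x_j x_i` -/
def lamN (i j : α) (hij : i ≠ j) : MulAut (FreeGroup α) :=
  epsN i * (rhoN i j hij)⁻¹ * epsN i

theorem rhoN_inv_self {i j : α} (h : i ≠ j) : (rhoN i j h)⁻¹ (of i) = of i * (of j)⁻¹ := by
  apply (rhoN i j h).injective
  rw [← MulAut.mul_apply, mul_inv_cancel, MulAut.one_apply, map_mul, map_inv, rhoN_self,
    rhoN_ne h h.symm, mul_inv_cancel_right]

theorem rhoN_inv_ne {i j k : α} (h : i ≠ j) (hk : k ≠ i) : (rhoN i j h)⁻¹ (of k) = of k := by
  apply (rhoN i j h).injective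
  rw [← MulAut.mul_apply, mul_inv_cancel, MulAut.one_apply, rhoN_ne h hk]

theorem lamN_self {i j : α} (h : i ≠ j) : lamN i j h (of i) = of j * of i := by
  rw [lamN, MulAut.mul_apply, MulAut.mul_apply, epsN_self, map_inv, rhoN_inv_self, map_inv,
    map_mul, map_inv, epsN_self, epsN_ne h.symm, mul_inv_rev, inv_inv, inv_inv]

theorem lamN_ne {i j k : α} (h : i ≠ j) (hk : k ≠ i) : lamN i j h (of k) = of k := by
  rw [lamN, MulAut.mul_apply, MulAut.mul_apply, epsN_ne hk, rhoN_inv_ne h hk, epsN_ne hk]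

/-- `ρ_ij` and `λ_ik` commute. -/
theorem rhoN_lamN {i j k : α} (hij : i ≠ j) (hik : i ≠ k) :
    rhoN i j hij * lamN i k hik = lamN i k hik * rhoN i j hij := by
  apply aut_ext
  intro m
  rw [MulAut.mul_apply, MulAut.mul_apply]
  by_cases hm : m = i
  · subst hm
    rw [lamN_self, rhoN_self, map_mul, map_mul, rhoN_self, rhoN_ne hij hik.symm, lamN_self,
      lamN_ne hik hij.symm, mul_assoc]
  · rw [rhoN_ne hij hm, lamN_ne hik hm, rhoN_ne hij hm]

/-- `swap(x_i, x_j) ε_j` is a product of transvections. -/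
theorem swap_eq {i j : α} (hij : i ≠ j) :
    permN (Equiv.swap i j) * epsN j =
      rhoN i j hij * (rhoN j i hij.symm)⁻¹ * lamN i j hij := by
  apply aut_ext
  intro m
  rw [MulAut.mul_apply, MulAut.mul_apply, MulAut.mul_apply]
  by_cases hm : m = i
  · subst hm
    rw [epsN_ne hij, permN_of, Equiv.swap_apply_left, lamN_self, map_mul, rhoN_inv_self,
      rhoN_inv_ne hij.symm hij, map_mul, map_mul, map_inv, rhoN_ne hij hij.symm, rhoN_self]
    group
  by_cases hm' : m = j
  · subst hm'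
    rw [epsN_self, map_inv, permN_of, Equiv.swap_apply_right, lamN_ne hij hm, rhoN_inv_self,
      map_mul, map_inv, rhoN_ne hij hm, rhoN_self]
    group
  · rw [epsN_ne hm', permN_of, Equiv.swap_apply_of_ne_of_ne hm hm', lamN_ne hij hm,
      rhoN_inv_ne hij.symm hm', rhoN_ne hij hm]

end Pool.Agent.Work.OutFn
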