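import Pool.Agent.Work.MP_ac5e87_al.Rel

/-!
# Homomorphisms that kill a transvection

If a homomorphism `φ` from `Aut(F_n)` kills one transvection, it kills all of them, and its image
is `{1, φ(ε_i)}`.
-/

namespace Pool.Agent.Work.OutFn

open FreeGroup hiding map_mul map_inv map_one

variable {α : Type} [DecidableEq α] {Q : Type*} [Group Q]

theorem phi_perm_rho (φ : MulAut (FreeGroup α) →* Q) (σ : Equiv.Perm α) {i j : α} (h : i ≠ j) :
    φ (permN σ) * φ (rhoN i j h) * (φ (permN σ))⁻¹ = φ (rhoN (σ i) (σ j) (σ.injective.ne h)) := by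
  rw [← map_mul, permN_mul_rhoN, map_mul, mul_inv_cancel_right]

theorem phi_perm_eps (φ : MulAut (FreeGroup α) →* Q) (σ : Equiv.Perm α) (i : α) :
    φ (permN σ) * φ (epsN i) * (φ (permN σ))⁻¹ = φ (epsN (σ i)) := by
  rw [← map_mul, permN_mul_epsN, map_mul, mul_inv_cancel_right]

theorem exists_perm {i j k l : α} (hij : i ≠ j) (hkl : k ≠ l) :
    ∃ σ : Equiv.Perm α, σ i = k ∧ σ j = l := by
  refine ⟨(Equiv.swap (Equiv.swap i k j) l) * Equiv.swap i k, ?_, ?_⟩
  · rw [Equiv.Perm.mul_apply, Equiv.swap_apply_left]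
    apply Equiv.swap_apply_of_ne_of_ne _ hkl
    intro h
    have h1 : Equiv.swap i k i = Equiv.swap i k j := by rw [Equiv.swap_apply_left]; exact h
    exact hij ((Equiv.swap i k).injective h1)
  · rw [Equiv.Perm.mul_apply, Equiv.swap_apply_left]

/-- If one transvection dies then all of them die. -/
theorem all_rho {φ : MulAut (FreeGroup α) →* Q} {i j : α} {hij : i ≠ j}
    (h : φ (rhoN i j hij) = 1) {k l : α} (hkl : k ≠ l) : φ (rhoN k l hkl) = 1 := by
  obtain ⟨σ, h1, h2⟩ := exists_perm hij hkl
  subst h1 h2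
  rw [← phi_perm_rho φ σ hij, h]
  simp

/-- If two transvections `ρ_ij`, `ρ_jk` commute then `ρ_ik` dies. -/
theorem rho_of_commute {φ : MulAut (FreeGroup α) →* Q} {i j k : α} {hij : i ≠ j} {hjk : j ≠ k}
    (hik : i ≠ k) (h : Commute (φ (rhoN i j hij)) (φ (rhoN j k hjk))) :
    φ (rhoN i k hik) = 1 := by
  have h1 := congrArg φ (rhoN_comm hij hjk hik)
  rw [map_mul, map_mul, map_mul, ← h.eq] at h1
  exact (mul_eq_left.1 h1.symm)

theorem eps_sq (φ : MulAut (FreeGroup α) →* Q) (i : α) : φ (epsN i) * φ (epsN i) = 1 := by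
  rw [← map_mul, epsN_mul_self, map_one]

theorem lam_of_rho {φ : MulAut (FreeGroup α) →* Q} {i j : α} {hij : i ≠ j}
    (h : φ (rhoN i j hij) = 1) : φ (lamN i j hij) = 1 := by
  rw [lamN, map_mul, map_mul, map_inv, h, inv_one, mul_one, eps_sq]

theorem swap_of_rho {φ : MulAut (FreeGroup α) →* Q}
    (h : ∀ (i j : α) (hij : i ≠ j), φ (rhoN i j hij) = 1) {i j : α} (hij : i ≠ j) :
    φ (permN (Equiv.swap i j)) = φ (epsN j) := by
  have h1 := congrArg φ (swap_eq hij)
  rw [map_mul, map_mul, map_mul, map_inv, h, h, lam_of_rho (h i j hij)] at h1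
  have h2 := eps_sq φ j
  simp only [inv_one, mul_one] at h1
  exact mul_right_cancel (h1.trans h2.symm)

theorem eps_of_rho {φ : MulAut (FreeGroup α) →* Q}
    (h : ∀ (i j : α) (hij : i ≠ j), φ (rhoN i j hij) = 1) (i j : α) :
    φ (epsN i) = φ (epsN j) := by
  by_cases hij : i = j
  · rw [hij]
  · rw [← swap_of_rho h hij, Equiv.swap_comm, swap_of_rho h (Ne.symm hij)]

/-- If all transvections die then the image is `{1, φ(ε)}`. -/
theorem range_of_rho [Fintype α] {φ : MulAut (FreeGroup α) →* Q}
    (h : ∀ (i j : α) (hij : i ≠ j), φ (rhoN i j hij) = 1) (i : α) (g : MulAut (FreeGroup α)) :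
    φ g ∈ Subgroup.zpowers (φ (epsN i)) := by
  have hn : (Subgroup.zpowers (φ (epsN i))).comap φ = ⊤ := by
    apply nielsen
    · intro g k l hkl h1 h2
      have h3 : g = rhoN k l hkl := by
        apply aut_ext
        intro m
        by_cases hm : m = k
        · subst hm
          rw [h1, rhoN_self]
        · rw [h2 m hm, rhoN_ne hkl hm]
      rw [h3, Subgroup.mem_comap, h]
      exact one_mem _
    · intro g k h1 h2
      have h3 : g = epsN k := by
        apply aut_ext
        intro m
        by_cases hm : m = k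
        · subst hm
          rw [h1, epsN_self]
        · rw [h2 m hm, epsN_ne hm]
      rw [h3, Subgroup.mem_comap, eps_of_rho h k i]
      exact Subgroup.mem_zpowers _
    · intro g σ h1
      have h3 : g = permN σ := by
        apply aut_ext
        intro m
        rw [h1, permN_of]
      rw [h3, Subgroup.mem_comap]
      induction σ using Equiv.Perm.swap_induction_on generalizing g with
      | one => simp
      | swap_mul σ x y hxy ih =>
        rw [map_mul, map_mul]
        refine mul_mem ?_ (ih (permN σ) (fun k => permN_of σ k) rfl)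
        rw [swap_of_rho h hxy, eps_of_rho h y i]
        exact Subgroup.mem_zpowers _
  have h1 : g ∈ (Subgroup.zpowers (φ (epsN i))).comap φ := by
    rw [hn]
    trivial
  exact h1

end Pool.Agent.Work.OutFn
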