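import Pool.Agent.Work.MP_ac5e87_al.Even

/-!
# Symmetric groups of theta graphs

For an injective map `y : β → α` the symmetric group of `Option β` acts on `FreeGroup α`: with
`Y none = 1`, `Y (some j) = x_(y j)`, the permutation `π` sends `Y x` to `Y (π x) * (Y (π none))⁻¹`
and fixes the generators outside of the image of `y`.
-/

namespace Pool.Agent.Work.OutFn

open FreeGroup hiding map_mul map_inv map_one

variable {α β : Type}

/-- The vertices. -/
def yy (y : β → α) : Option β → FreeGroup α
  | none => 1
  | some j => of (y j)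

/-- The homomorphism of a permutation. -/
noncomputable def thHom (y : β → α) (π : Equiv.Perm (Option β)) : FreeGroup α →* FreeGroup α :=
  FreeGroup.lift (Function.extend y (fun j => yy y (π (some j)) * (yy y (π none))⁻¹) of)

theorem thHom_yy {y : β → α} (hy : Function.Injective y) (π : Equiv.Perm (Option β))
    (x : Option β) : thHom y π (yy y x) = yy y (π x) * (yy y (π none))⁻¹ := by
  cases x with
  | none => simp [yy]
  | some j =>
    rw [yy, thHom, FreeGroup.lift_apply_of, hy.extend_apply]

theorem thHom_of {y : β → α} (π : Equiv.Perm (Option β)) {k : α} (hk : ∀ j, y j ≠ k) :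
    thHom y π (of k) = of k := by
  rw [thHom, FreeGroup.lift_apply_of, Function.extend_apply']
  rintro ⟨j, hj⟩
  exact hk j hj

theorem thHom_mul {y : β → α} (hy : Function.Injective y) (π τ : Equiv.Perm (Option β)) :
    (thHom y π).comp (thHom y τ) = thHom y (π * τ) := by
  apply FreeGroup.ext_hom
  intro k
  rw [MonoidHom.comp_apply]
  by_cases hk : ∃ j, y j = k
  · obtain ⟨j, rfl⟩ := hk
    have h1 : (of (y j) : FreeGroup α) = yy y (some j) := rfl
    rw [h1, thHom_yy hy, thHom_yy hy, map_mul, map_inv, thHom_yy hy, thHom_yy hy,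
      Equiv.Perm.mul_apply, Equiv.Perm.mul_apply]
    group
  · push Not at hk
    rw [thHom_of τ hk, thHom_of π hk, thHom_of _ hk]

theorem thHom_one {y : β → α} (hy : Function.Injective y) : thHom y 1 = MonoidHom.id _ := by
  apply FreeGroup.ext_hom
  intro k
  by_cases hk : ∃ j, y j = k
  · obtain ⟨j, rfl⟩ := hk
    have h1 : (of (y j) : FreeGroup α) = yy y (some j) := rfl
    rw [h1, thHom_yy hy]
    simp [yy]
  · push Not at hk
    rw [thHom_of _ hk]
    rfl

/-- The action of the symmetric group. -/
noncomputable def theta {y : β → α} (hy : Function.Injective y) :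
    Equiv.Perm (Option β) →* MulAut (FreeGroup α) where
  toFun π := MonoidHom.toMulEquiv (thHom y π) (thHom y π⁻¹)
    (by rw [thHom_mul hy, inv_mul_cancel, thHom_one hy])
    (by rw [thHom_mul hy, mul_inv_cancel, thHom_one hy])
  map_one' := by
    apply aut_ext
    intro k
    change thHom y 1 (of k) = _
    rw [thHom_one hy]
    rfl
  map_mul' π τ := by
    apply aut_ext
    intro k
    change thHom y (π * τ) (of k) = thHom y π (thHom y τ (of k))
    rw [← thHom_mul hy]
    rfl

theorem theta_yy {y : β → α} (hy : Function.Injective y) (π : Equiv.Perm (Option β))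
    (x : Option β) : theta hy π (yy y x) = yy y (π x) * (yy y (π none))⁻¹ :=
  thHom_yy hy π x

theorem theta_some {y : β → α} (hy : Function.Injective y) (π : Equiv.Perm (Option β))
    (j : β) : theta hy π (of (y j)) = yy y (π (some j)) * (yy y (π none))⁻¹ :=
  thHom_yy hy π (some j)

theorem theta_of {y : β → α} (hy : Function.Injective y) (π : Equiv.Perm (Option β)) {k : α}
    (hk : ∀ j, y j ≠ k) : theta hy π (of k) = of k :=
  thHom_of π hk

theorem permN_yy [DecidableEq α] (σ : Equiv.Perm α) (y : β → α) (x : Option β) :
    permN σ (yy y x) = yy (σ ∘ y) x := by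
  cases x with
  | none => simp [yy]
  | some j => rw [yy, yy, permN_of, Function.comp_apply]

theorem permN_theta [DecidableEq α] (σ : Equiv.Perm α) {y z : β → α}
    (hy : Function.Injective y) (hz : Function.Injective z) (h : ∀ j, σ (y j) = z j)
    (π : Equiv.Perm (Option β)) : permN σ * theta hy π = theta hz π * permN σ := by
  have h0 : σ ∘ y = z := funext h
  apply aut_ext
  intro k
  rw [MulAut.mul_apply, MulAut.mul_apply, permN_of]
  by_cases hk : ∃ j, y j = k
  · obtain ⟨j, rfl⟩ := hk
    rw [theta_some, h, theta_some, map_mul, map_inv, permN_yy, permN_yy, h0]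
  · push Not at hk
    rw [theta_of _ _ hk, permN_of, theta_of]
    intro j hj
    rw [← h] at hj
    exact hk j (σ.injective hj)

theorem theta_yy_of_disjoint {y z : β → α} (hz : Function.Injective z)
    (h : ∀ i j, z i ≠ y j) (π : Equiv.Perm (Option β)) (x : Option β) :
    theta hz π (yy y x) = yy y x := by
  cases x with
  | none => simp [yy]
  | some j => exact theta_of hz π fun i => h i j

theorem theta_commute {y z : β → α} (hy : Function.Injective y) (hz : Function.Injective z)
    (h : ∀ i j, z i ≠ y j) (π τ : Equiv.Perm (Option β)) :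
    theta hy π * theta hz τ = theta hz τ * theta hy π := by
  apply aut_ext
  intro k
  rw [MulAut.mul_apply, MulAut.mul_apply]
  by_cases hk : ∃ j, y j = k
  · obtain ⟨j, rfl⟩ := hk
    rw [theta_some, theta_of hz τ fun i => h i j, theta_some, map_mul, map_inv,
      theta_yy_of_disjoint hz h, theta_yy_of_disjoint hz h]
  · push Not at hk
    rw [theta_of hy π hk]
    by_cases hk' : ∃ j, z j = k
    · obtain ⟨j, rfl⟩ := hk'
      rw [theta_some, map_mul, map_inv, theta_yy_of_disjoint hy fun i j => (h j i).symm,
        theta_yy_of_disjoint hy fun i j => (h j i).symm]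
    · push Not at hk'
      rw [theta_of hz τ hk', theta_of hy π hk]

theorem theta_swap [DecidableEq α] [DecidableEq β] {y : β → α} (hy : Function.Injective y)
    (a b : β) : theta hy (Equiv.swap (some a) (some b)) = permN (Equiv.swap (y a) (y b)) := by
  have hnone : Equiv.swap (some a) (some b) none = none :=
    Equiv.swap_apply_of_ne_of_ne (by simp) (by simp)
  apply aut_ext
  intro k
  rw [permN_of]
  by_cases hk : ∃ j, y j = k
  · obtain ⟨j, rfl⟩ := hk
    rw [theta_some, hnone]
    by_cases h1 : j = a
    · subst h1
      rw [Equiv.swap_apply_left, Equiv.swap_apply_left]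
      simp [yy]
    by_cases h2 : j = b
    · subst h2
      rw [Equiv.swap_apply_right, Equiv.swap_apply_right]
      simp [yy]
    rw [Equiv.swap_apply_of_ne_of_ne (by simpa using h1) (by simpa using h2),
      Equiv.swap_apply_of_ne_of_ne (hy.ne h1) (hy.ne h2)]
    simp [yy]
  · push Not at hk
    rw [theta_of hy _ hk, Equiv.swap_apply_of_ne_of_ne (hk a).symm (hk b).symm]

end Pool.Agent.Work.OutFn
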